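import Pool.Agent.KBT.Defs

set_option autoImplicit false

namespace KBT

open Filter

/-- Pigeonhole for ultrafilters. -/
theorem ev_pigeon {α β : Type*} (𝒰 : Ultrafilter α) {𝒟 : Set β} (hfin : 𝒟.Finite) (D : α → β)
    (hD : ∀ᶠ a in (𝒰 : Filter α), D a ∈ 𝒟) : ∃ d ∈ 𝒟, ∀ᶠ a in (𝒰 : Filter α), D a = d := by
  have h1 : (⋃ d ∈ 𝒟, {a | D a = d}) ∈ 𝒰 := by
    refine Filter.mem_of_superset hD ?_
    intro a ha
    simp only [Set.mem_iUnion, Set.mem_ofPred_eq, exists_prop]
    exact ⟨D a, ha, rfl⟩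
  rw [Ultrafilter.finite_biUnion_mem_iff hfin] at h1
  exact h1

/-- Extraction of a sequence of points and sets from an infinite family of sets. -/
theorem seqext {W : Type*} (𝒟 : Set (Set W)) (h : 𝒟.Infinite) :
    ∃ (x : ℕ → W) (D : ℕ → Set W), Function.Injective x ∧ (∀ a, D a ∈ 𝒟) ∧
      ∀ᶠ a in (hyperfilter ℕ : Filter ℕ),
        ¬ ((x a ∈ D a) ↔ ∀ᶠ b in (hyperfilter ℕ : Filter ℕ), x b ∈ D a) := by
  classical
  let ρ : W → Set (Set W) := fun w => {D | D ∈ 𝒟 ∧ w ∈ D}
  have hinf : (Set.range ρ).Infinite := by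
    intro hfin
    apply h
    have h1 : ((fun D : Set W => ρ '' D) '' 𝒟).Finite := by
      refine (hfin.finite_subsets).subset ?_
      rintro _ ⟨D, _, rfl⟩
      exact Set.image_subset_range _ _
    refine Set.Finite.of_finite_image h1 ?_
    intro D hD D' hD' heq
    dsimp only at heq
    have key : ∀ E E' : Set W, E ∈ 𝒟 → E' ∈ 𝒟 → ρ '' E = ρ '' E' → E ⊆ E' := by
      intro E E' _ hE' heq w hw
      have : ρ w ∈ ρ '' E' := by rw [← heq]; exact ⟨w, hw, rfl⟩
      obtain ⟨w', hw', h2⟩ := this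
      have h3 : E' ∈ ρ w' := ⟨hE', hw'⟩
      rw [h2] at h3
      exact h3.2
    exact Set.Subset.antisymm (key D D' hD hD' heq) (key D' D hD' hD heq.symm)
  let e := hinf.natEmbedding (Set.range ρ)
  have hch : ∀ n, ∃ w, ρ w = (e n).1 := fun n => (e n).2
  choose x hx using hch
  have hρinj : Function.Injective (fun n => ρ (x n)) := by
    intro a b hab
    dsimp only at hab
    rw [hx, hx] at hab
    exact e.injective (Subtype.ext hab)
  have hxinj : Function.Injective x := fun a b hab => hρinj (by dsimp only; rw [hab])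
  let ρ' : Set (Set W) := {D | D ∈ 𝒟 ∧ ∀ᶠ b in (hyperfilter ℕ : Filter ℕ), x b ∈ D}
  obtain ⟨D0, hD0⟩ := h.nonempty
  have hD : ∀ a, ρ (x a) ≠ ρ' → ∃ D ∈ 𝒟, ¬ ((x a ∈ D) ↔
      ∀ᶠ b in (hyperfilter ℕ : Filter ℕ), x b ∈ D) := by
    intro a ha
    by_contra hcon
    push Not at hcon
    apply ha
    ext D
    constructor
    · rintro ⟨h1, h2⟩
      exact ⟨h1, (hcon D h1).mp h2⟩
    · rintro ⟨h1, h2⟩
      exact ⟨h1, (hcon D h1).mpr h2⟩
  refine ⟨x, fun a => if ha : ρ (x a) ≠ ρ' then (hD a ha).choose else D0, hxinj, ?_, ?_⟩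
  · intro a
    by_cases ha : ρ (x a) ≠ ρ'
    · simp only [ha, ne_eq, not_false_iff, dite_true]
      exact (hD a ha).choose_spec.1
    · simp only [ha, dite_false]
      exact hD0
  · have h1 : ∀ᶠ a in (hyperfilter ℕ : Filter ℕ), ρ (x a) ≠ ρ' := by
      have h2 : {a | ρ (x a) = ρ'}.Finite := by
        refine Set.Subsingleton.finite ?_
        intro a ha b hb
        exact hρinj (by
          dsimp only
          have ha' : ρ (x a) = ρ' := ha
          have hb' : ρ (x b) = ρ' := hb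
          rw [ha', hb'])
      exact Filter.hyperfilter_le_cofinite h2.compl_mem_cofinite
    filter_upwards [h1] with a ha
    simp only [ha, ne_eq, not_false_iff, dite_true]
    exact (hD a ha).choose_spec.2

end KBT
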