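import Pool.Agent.KBT.Defs

set_option autoImplicit false

namespace KBT

open Filter

/-- Almost everywhere a property agrees with its limit. -/
theorem ev_dec {α : Type*} (𝒰 : Ultrafilter α) (P : α → Prop) :
    ∀ᶠ i in (𝒰 : Filter α), (P i ↔ ∀ᶠ j in (𝒰 : Filter α), P j) := by
  by_cases h : ∀ᶠ j in (𝒰 : Filter α), P j
  · exact h.mono fun i hi => ⟨fun _ => h, fun _ => hi⟩
  · have h' := h
    rw [ev_not] at h'
    exact h'.mono fun i hi => ⟨fun h1 => absurd h1 hi, fun h1 => absurd h1 h⟩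

theorem ev_dec2 {α β : Type*} (𝒰 : Ultrafilter α) (𝒱 : Ultrafilter β) (P : α → β → Prop) :
    ∀ᶠ i in (𝒰 : Filter α), ∀ᶠ j in (𝒱 : Filter β),
      (P i j ↔ ∀ᶠ i' in (𝒰 : Filter α), ∀ᶠ j' in (𝒱 : Filter β), P i' j') := by
  filter_upwards [ev_dec 𝒰 (fun i => ∀ᶠ j in (𝒱 : Filter β), P i j)] with i hi
  filter_upwards [ev_dec 𝒱 (fun j => P i j)] with j hj
  rw [hj, hi]

theorem ev_dec4 {α : Type*} (𝒰 : Ultrafilter α) (P : α → α → α → α → Prop) :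
    ∀ᶠ a in (𝒰 : Filter α), ∀ᶠ b in (𝒰 : Filter α), ∀ᶠ c in (𝒰 : Filter α),
      ∀ᶠ d in (𝒰 : Filter α),
      (P a b c d ↔ ∀ᶠ a in (𝒰 : Filter α), ∀ᶠ b in (𝒰 : Filter α), ∀ᶠ c in (𝒰 : Filter α),
        ∀ᶠ d in (𝒰 : Filter α), P a b c d) := by
  filter_upwards [ev_dec2 𝒰 𝒰 (fun a b => ∀ᶠ c in (𝒰 : Filter α),
        ∀ᶠ d in (𝒰 : Filter α), P a b c d)] with a ha
  filter_upwards [ha] with b hb
  filter_upwards [ev_dec2 𝒰 𝒰 (fun c d => P a b c d)] with c hc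
  filter_upwards [hc] with d hd
  rw [hd, hb]

end KBT
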