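import Pool.Agent.KBT.Defs

set_option autoImplicit false

namespace KBT

open Filter

/-- Generic sequences for a binary and a quaternary predicate. -/
theorem gen4 {A : Type*} (𝒜 : Ultrafilter A) (L : A → A → Prop) (Q : A → A → A → A → Prop)
    (hL : ∀ᶠ a in (𝒜 : Filter A), ∀ᶠ b in (𝒜 : Filter A), L a b)
    (hQ : ∀ᶠ a in (𝒜 : Filter A), ∀ᶠ b in (𝒜 : Filter A), ∀ᶠ c in (𝒜 : Filter A),
      ∀ᶠ d in (𝒜 : Filter A), Q a b c d) (K : ℕ) :
    ∃ β : ℕ → A, (∀ i j, i < j → j < K → L (β i) (β j)) ∧
      ∀ i j k l, i < j → j < k → k < l → l < K → Q (β i) (β j) (β k) (β l) := by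
  classical
  have key : ∀ K : ℕ, ∃ β : ℕ → A,
      (∀ i < K, (∀ᶠ b in (𝒜 : Filter A), L (β i) b) ∧ (∀ᶠ b in (𝒜 : Filter A),
        ∀ᶠ c in (𝒜 : Filter A), ∀ᶠ d in (𝒜 : Filter A), Q (β i) b c d)) ∧
      (∀ i j, i < j → j < K → L (β i) (β j) ∧ ∀ᶠ c in (𝒜 : Filter A), ∀ᶠ d in (𝒜 : Filter A),
        Q (β i) (β j) c d) ∧
      (∀ i j k, i < j → j < k → k < K → ∀ᶠ d in (𝒜 : Filter A), Q (β i) (β j) (β k) d) ∧
      ∀ i j k l, i < j → j < k → k < l → l < K → Q (β i) (β j) (β k) (β l) := by
    intro K
    induction K with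
    | zero =>
      obtain ⟨a, _⟩ := hL.exists
      exact ⟨fun _ => a, fun i hi => absurd hi (Nat.not_lt_zero i),
        fun i j _ h => absurd h (Nat.not_lt_zero j), fun i j k _ _ h => absurd h (Nat.not_lt_zero k),
        fun i j k l _ _ _ h => absurd h (Nat.not_lt_zero l)⟩
    | succ K ih =>
      obtain ⟨β, h1, h2, h3, h4⟩ := ih
      have e1 : ∀ᶠ b in (𝒜 : Filter A), ∀ i ∈ Finset.range K, L (β i) b ∧
          ∀ᶠ c in (𝒜 : Filter A), ∀ᶠ d in (𝒜 : Filter A), Q (β i) b c d := by
        rw [eventually_all_finset]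
        intro i hi
        exact (h1 i (Finset.mem_range.mp hi)).1.and (h1 i (Finset.mem_range.mp hi)).2
      have e2 : ∀ᶠ b in (𝒜 : Filter A), ∀ i ∈ Finset.range K, ∀ j ∈ Finset.range K, i < j →
          ∀ᶠ d in (𝒜 : Filter A), Q (β i) (β j) b d := by
        rw [eventually_all_finset]
        intro i hi
        rw [eventually_all_finset]
        intro j hj
        by_cases hij : i < j
        · exact (h2 i j hij (Finset.mem_range.mp hj)).2.mono fun b hb _ => hb
        · exact Eventually.of_forall fun b h => absurd h hij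
      have e3 : ∀ᶠ b in (𝒜 : Filter A), ∀ i ∈ Finset.range K, ∀ j ∈ Finset.range K,
          ∀ k ∈ Finset.range K, i < j → j < k → Q (β i) (β j) (β k) b := by
        rw [eventually_all_finset]
        intro i hi
        rw [eventually_all_finset]
        intro j hj
        rw [eventually_all_finset]
        intro k hk
        by_cases hij : i < j ∧ j < k
        · exact (h3 i j k hij.1 hij.2 (Finset.mem_range.mp hk)).mono fun b hb _ _ => hb
        · exact Eventually.of_forall fun b h h' => absurd ⟨h, h'⟩ hij
      obtain ⟨b, ⟨⟨⟨hb0, hb1⟩, hb2⟩, hb3⟩, hb4⟩ := ((((hL.and hQ).and e1).and e2).and e3).exists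
      refine ⟨fun n => if n = K then b else β n, ?_, ?_, ?_, ?_⟩
      · intro i hi
        by_cases hK : i = K
        · simp only [hK, if_true]
          exact ⟨hb0, hb1⟩
        · simp only [hK, if_false]
          exact h1 i (by omega)
      · intro i j hij hj
        have hi : i ≠ K := by omega
        by_cases hK : j = K
        · simp only [hi, hK, if_true, if_false]
          exact hb2 i (Finset.mem_range.mpr (by omega))
        · simp only [hi, hK, if_false]
          exact h2 i j hij (by omega)
      · intro i j k hij hjk hk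
        have hi : i ≠ K := by omega
        have hj : j ≠ K := by omega
        by_cases hK : k = K
        · simp only [hi, hj, hK, if_true, if_false]
          exact hb3 i (Finset.mem_range.mpr (by omega)) j (Finset.mem_range.mpr (by omega)) hij
        · simp only [hi, hj, hK, if_false]
          exact h3 i j k hij hjk (by omega)
      · intro i j k l hij hjk hkl hl
        have hi : i ≠ K := by omega
        have hj : j ≠ K := by omega
        have hk : k ≠ K := by omega
        by_cases hK : l = K
        · simp only [hi, hj, hk, hK, if_true, if_false]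
          exact hb4 i (Finset.mem_range.mpr (by omega)) j (Finset.mem_range.mpr (by omega)) k
            (Finset.mem_range.mpr (by omega)) hij hjk
        · simp only [hi, hj, hk, hK, if_false]
          exact h4 i j k l hij hjk hkl (by omega)
  obtain ⟨β, _, h2, _, h4⟩ := key K
  exact ⟨β, fun i j hij hj => (h2 i j hij hj).1, h4⟩

end KBT
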