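import Pool.Agent.KBT.Chl

set_option autoImplicit false

namespace KBT

/-- Paths for a flip with finitely many types can be shortened, if there is no long pair of
parallel runs. -/
theorem plg {Z V κ : Type*} [Fintype κ] (R : V → V → Prop) (hR : ∀ x y, R x y → R y x)
    (P : Z → V) (t : Z → κ) (Φ : κ → κ → Prop) (hΦ : ∀ a b, Φ a b → Φ b a) (m : ℕ)
    (hX : ¬ PP R m) {x y : Z}
    (h : Relation.ReflTransGen (fun a b => ¬ (R (P a) (P b) ↔ Φ (t a) (t b))) x y) :
    ∃ n ≤ (Fintype.card κ ^ (m+1) + 1) * (m+2), ∃ p : ℕ → Z, p 0 = x ∧ p n = y ∧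
      ∀ i < n, ¬ (R (P (p i)) (P (p (i+1))) ↔ Φ (t (p i)) (t (p (i+1)))) := by
  classical
  obtain ⟨n, p, h0, hn, hp, hc⟩ := chordless h
  by_cases hle : n ≤ (Fintype.card κ ^ (m+1) + 1) * (m+2)
  · exact ⟨n, hle, p, h0, hn, hp⟩
  exfalso
  push Not at hle
  -- words
  let word : Fin (Fintype.card κ ^ (m+1) + 1) → (Fin (m+1) → κ) :=
    fun s a => t (p (s.1 * (m+2) + a.1))
  have hcard : Fintype.card (Fin (m+1) → κ) < Fintype.card (Fin (Fintype.card κ ^ (m+1) + 1)) := by
    simp
  obtain ⟨s1, s2, hne, hw⟩ := Fintype.exists_ne_map_eq_of_card_lt word hcard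
  -- wlog order
  have key : ∀ s s' : Fin (Fintype.card κ ^ (m+1) + 1), s.1 < s'.1 → word s = word s' → False := by
    intro s s' hlt hw
    apply hX
    have hsym : ∀ a b, R a b ↔ R b a := fun a b => ⟨hR a b, hR b a⟩
    have hΦs : ∀ a b, Φ a b ↔ Φ b a := fun a b => ⟨hΦ a b, hΦ b a⟩
    have hword : ∀ a, a ≤ m → t (p (s.1 * (m+2) + a)) = t (p (s'.1 * (m+2) + a)) := by
      intro a ha
      have := congrFun hw ⟨a, by omega⟩
      simpa [word] using this
    have hb1 : ∀ a, a ≤ m → s'.1 * (m+2) + a ≤ n := by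
      intro a ha
      have h1 : s'.1 ≤ Fintype.card κ ^ (m+1) := by
        have := s'.2; omega
      have h2 : s'.1 * (m+2) ≤ Fintype.card κ ^ (m+1) * (m+2) := Nat.mul_le_mul_right _ h1
      have h3 : (Fintype.card κ ^ (m+1) + 1) * (m+2) = Fintype.card κ ^ (m+1) * (m+2) + (m+2) := by
        ring
      omega
    have hgap : s.1 * (m+2) + (m + 2) ≤ s'.1 * (m+2) := by
      have h1 : s.1 + 1 ≤ s'.1 := hlt
      have h2 : (s.1 + 1) * (m+2) ≤ s'.1 * (m+2) := Nat.mul_le_mul_right _ h1
      have h3 : (s.1 + 1) * (m+2) = s.1 * (m+2) + (m+2) := by ring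
      omega
    have far : ∀ i j, i + 2 ≤ j → j ≤ n → (R (P (p i)) (P (p j)) ↔ Φ (t (p i)) (t (p j))) := by
      intro i j hij hj
      exact not_not.mp (hc i j hij hj)
    have far' : ∀ i j, i + 2 ≤ j → j ≤ n → (R (P (p j)) (P (p i)) ↔ Φ (t (p j)) (t (p i))) := by
      intro i j hij hj
      rw [hsym (P (p j)), hΦs (t (p j))]
      exact far i j hij hj
    have con' : ∀ i, i < n → ¬ (R (P (p (i+1))) (P (p i)) ↔ Φ (t (p (i+1))) (t (p i))) := by
      intro i hi
      rw [hsym (P (p (i+1))), hΦs (t (p (i+1)))]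
      exact hp i hi
    set A : ℕ := s'.1 * (m+2) with hA
    set B : ℕ := s.1 * (m+2) with hB
    refine ⟨fun a => P (p (A + a)), fun a => P (p (B + a)), ?_, ?_⟩
    · intro a ha
      have e1 := con' (A + a) (by have := hb1 (a+1) (by omega); omega)
      have e2 := con' (B + a) (by have := hb1 (a+1) (by omega); omega)
      have e3 := far' (B + a) (A + (a + 1)) (by omega) (hb1 _ (by omega))
      have e4 := far (B + (a + 1)) (A + a) (by omega) (hb1 _ (by omega))
      have t1 := hword a (by omega)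
      have t2 := hword (a+1) (by omega)
      have r1 : A + a + 1 = A + (a + 1) := by ring
      have r2 : B + a + 1 = B + (a + 1) := by ring
      rw [r1] at e1
      rw [r2] at e2
      rw [t1] at e2 e3
      rw [t2] at e2 e4
      refine ⟨?_, ?_, ?_⟩ <;> dsimp only <;> tauto
    · intro a b hab hb
      have e1 := far' (A + a) (A + b) (by omega) (hb1 _ (by omega))
      have e2 := far' (B + a) (A + b) (by omega) (hb1 _ (by omega))
      have e3 := far (B + b) (A + a) (by omega) (hb1 _ (by omega))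
      have e4 := far' (B + a) (B + b) (by omega) (by have := hb1 b hb; omega)
      have t1 := hword a (by omega)
      have t2 := hword b (by omega)
      rw [t1] at e2 e4
      rw [t2] at e3 e4
      refine ⟨?_, ?_⟩ <;> dsimp only <;> tauto
  rcases lt_trichotomy s1.1 s2.1 with h1 | h1 | h1
  · exact key s1 s2 h1 hw
  · exact hne (Fin.ext h1)
  · exact key s2 s1 h1 hw.symm

end KBT
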