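import Pool.Agent.KBT.ExtB
import Pool.Agent.KBT.Dec
import Pool.Agent.KBT.Plg
import Pool.Agent.KBT.Gen

set_option autoImplicit false

namespace KBT

open Filter

theorem path_of_transGen {V : Type*} {E : V → V → Prop} {x y : V} (h : Relation.TransGen E x y) :
    ∃ (n : ℕ) (p : ℕ → V), 1 ≤ n ∧ p 0 = x ∧ p n = y ∧ ∀ i < n, E (p i) (p (i+1)) := by
  induction h with
  | @single b hb =>
    refine ⟨1, fun t => if t = 0 then x else b, le_rfl, by simp, by simp, ?_⟩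
    intro i hi
    have : i = 0 := by omega
    subst this
    simpa using hb
  | @tail b c _ hbc ih =>
    obtain ⟨n, p, h1, h0, hn, hp⟩ := ih
    refine ⟨n + 1, fun t => if t ≤ n then p t else c, by omega, by simp [h0], by simp, ?_⟩
    intro i hi
    rcases Nat.lt_succ_iff_lt_or_eq.mp hi with h1 | h1
    · have : i + 1 ≤ n := h1
      simp only [this, if_true, h1.le]
      exact hp i h1
    · subst h1
      simp only [le_refl, if_true]
      have : ¬ (i + 1 ≤ i) := by omega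
      simp only [this, if_false, hn]
      exact hbc

theorem Dl_snd {A W : Type*} (𝒜 : Ultrafilter A) (R : W → W → Prop) (f : A × A → W) (X : A → W) :
    Dl (prodU 𝒜 𝒜) R f (X ∘ Prod.snd) ↔ Dl (prodU 𝒜 𝒜) R f (X ∘ Prod.fst) := by
  unfold Dl
  refine eventually_congr (Eventually.of_forall fun q => ?_)
  rw [ev_prodU, ev_prodU]
  simp only [Function.comp]
  rw [eventually_const]
  refine eventually_congr (Eventually.of_forall fun c => ?_)
  rw [eventually_const]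

/-- Two independent copies of a non constant element are never connected. -/
theorem wlu {A W : Type*} (𝒜 : Ultrafilter A) {R : W → W → Prop} (hR : ∀ x y, R x y → R y x)
    {h m : ℕ} (hH : ¬ HG2 R h) (hX : ¬ PP R m) (X : A → W)
    (hT : Relation.TransGen (Ex (prodU 𝒜 𝒜) R) (X ∘ Prod.fst) (X ∘ Prod.snd)) : False := by
  classical
  obtain ⟨s, p, hs, h0, hsn, hp⟩ := path_of_transGen hT
  set 𝒲 := prodU 𝒜 𝒜 with h𝒲
  let M : ℕ → ℕ → Prop := fun σ τ => Dl 𝒲 R (p σ) (p τ)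
  have hMsymm : ∀ σ τ, M σ τ ↔ M τ σ := fun σ τ => Dl_symm 𝒲 hR hH _ _
  have hcon : ∀ σ, σ < s → (Rs 𝒲 R (p σ) (p (σ+1)) ↔ ¬ M σ (σ+1)) := by
    intro σ hσ
    have := hp σ hσ
    unfold Ex at this
    tauto
  set bd : ℕ := (Fintype.card (Fin s) ^ (m+1) + 1) * (m+2) with hbd
  have hL : ∀ᶠ a in (𝒜 : Filter A), ∀ᶠ b in (𝒜 : Filter A), ∀ σ ∈ Finset.range s,
      (R (p σ (a, b)) (p (σ+1) (a, b)) ↔ Rs 𝒲 R (p σ) (p (σ+1))) := by
    rw [← ev_prodU 𝒜 𝒜 (fun q => ∀ σ ∈ Finset.range s,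
      (R (p σ q) (p (σ+1) q) ↔ Rs 𝒲 R (p σ) (p (σ+1))))]
    rw [eventually_all_finset]
    intro σ _
    exact ev_dec 𝒲 (fun q => R (p σ q) (p (σ+1) q))
  have hQ : ∀ᶠ a in (𝒜 : Filter A), ∀ᶠ b in (𝒜 : Filter A), ∀ᶠ c in (𝒜 : Filter A),
      ∀ᶠ d in (𝒜 : Filter A), ∀ σ ∈ Finset.range (s+1), ∀ τ ∈ Finset.range (s+1),
      (R (p σ (a, b)) (p τ (c, d)) ↔ M σ τ) := by
    have e1 : ∀ᶠ q in (𝒲 : Filter (A × A)), ∀ᶠ r in (𝒲 : Filter (A × A)),
        ∀ σ ∈ Finset.range (s+1), ∀ τ ∈ Finset.range (s+1), (R (p σ q) (p τ r) ↔ M σ τ) := by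
      have e2 : ∀ᶠ q in (𝒲 : Filter (A × A)), ∀ σ ∈ Finset.range (s+1),
          ∀ τ ∈ Finset.range (s+1), ∀ᶠ r in (𝒲 : Filter (A × A)),
          (R (p σ q) (p τ r) ↔ M σ τ) := by
        rw [eventually_all_finset]
        intro σ _
        rw [eventually_all_finset]
        intro τ _
        exact ev_dec2 𝒲 𝒲 (fun q r => R (p σ q) (p τ r))
      filter_upwards [e2] with q hq
      rw [eventually_all_finset]
      intro σ hσ
      rw [eventually_all_finset]
      intro τ hτ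
      exact hq σ hσ τ hτ
    exact e1
  obtain ⟨β, hβL, hβQ⟩ := gen4 𝒜 _ _ hL hQ (bd + 4)
  -- the index graph
  let Z : Type := Fin (bd + 2) × Fin s
  let P : Z → W := fun z => p z.2.1 (β z.1.1, β (z.1.1 + 1))
  let t : Z → Fin s := fun z => z.2
  let Φ : Fin s → Fin s → Prop := fun σ τ => M σ.1 τ.1
  let EZ : Z → Z → Prop := fun a b => ¬ (R (P a) (P b) ↔ Φ (t a) (t b))
  have hs0 : 0 < s := hs
  have hlink1 : ∀ (k : Fin (bd+2)) (σ : ℕ) (hσ : σ + 1 < s),
      EZ (k, ⟨σ, by omega⟩) (k, ⟨σ+1, hσ⟩) := by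
    intro k σ hσ
    have e1 := hβL k.1 (k.1+1) (by omega) (by have := k.2; omega) σ (Finset.mem_range.mpr (by omega))
    have e2 := hcon σ (by omega)
    show ¬ (R (p σ (β k.1, β (k.1+1))) (p (σ+1) (β k.1, β (k.1+1))) ↔ M σ (σ+1))
    tauto
  have hlink2 : ∀ (k : ℕ) (hk : k + 1 < bd + 2),
      EZ (⟨k, by omega⟩, ⟨s-1, by omega⟩) (⟨k+1, hk⟩, ⟨0, hs0⟩) := by
    intro k hk
    have e1 := hβL k (k+1) (by omega) (by omega) (s-1) (Finset.mem_range.mpr (by omega))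
    have e2 := hcon (s-1) (by omega)
    have r1 : s - 1 + 1 = s := by omega
    rw [r1, hsn] at e1 e2
    have e3 : M (s-1) s ↔ M (s-1) 0 := by
      show Dl 𝒲 R (p (s-1)) (p s) ↔ Dl 𝒲 R (p (s-1)) (p 0)
      rw [hsn, h0]
      exact Dl_snd 𝒜 R (p (s-1)) X
    show ¬ (R (p (s-1) (β k, β (k+1))) (p 0 (β (k+1), β (k+1+1))) ↔ M (s-1) 0)
    have e4 : p 0 (β (k+1), β (k+1+1)) = X (β (k+1)) := by rw [h0]; rfl
    rw [e4]
    have e5 : (X ∘ Prod.snd) (β k, β (k+1)) = X (β (k+1)) := rfl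
    rw [e5] at e1
    tauto
  have hreach1 : ∀ (k : Fin (bd+2)) (σ : ℕ) (hσ : σ < s),
      Relation.ReflTransGen EZ (k, ⟨0, hs0⟩) (k, ⟨σ, hσ⟩) := by
    intro k σ
    induction σ with
    | zero => intro _; exact Relation.ReflTransGen.refl
    | succ σ ih => intro hσ; exact (ih (by omega)).tail (hlink1 k σ hσ)
  have hreach2 : ∀ (k : ℕ) (hk : k < bd + 2),
      Relation.ReflTransGen EZ (⟨0, by omega⟩, ⟨0, hs0⟩) (⟨k, hk⟩, ⟨0, hs0⟩) := by
    intro k
    induction k with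
    | zero => intro _; exact Relation.ReflTransGen.refl
    | succ k ih =>
      intro hk
      exact ((ih (by omega)).trans (hreach1 ⟨k, by omega⟩ (s-1) (by omega))).tail (hlink2 k hk)
  obtain ⟨n, hn, q, hq0, hqn, hq⟩ := plg R hR P t Φ (fun a b hab => (hMsymm _ _).mp hab) m hX
    (hreach2 (bd+1) (by omega))
  have hfar : ∀ z z' : Z, z.1.1 + 2 ≤ z'.1.1 → (R (P z) (P z') ↔ Φ (t z) (t z')) := by
    intro z z' hz
    exact hβQ z.1.1 (z.1.1+1) z'.1.1 (z'.1.1+1) (by omega) (by omega) (by omega)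
      (by have := z'.1.2; omega) z.2.1 (Finset.mem_range.mpr (by have := z.2.2; omega)) z'.2.1
      (Finset.mem_range.mpr (by have := z'.2.2; omega))
  have hstep : ∀ i < n, (q (i+1)).1.1 ≤ (q i).1.1 + 1 := by
    intro i hi
    by_contra hcn
    exact hq i hi (hfar (q i) (q (i+1)) (by omega))
  have hall : ∀ i ≤ n, (q i).1.1 ≤ i := by
    intro i
    induction i with
    | zero => intro _; rw [hq0]
    | succ i ih =>
      intro hi
      have h1 := hstep i (by omega)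
      have h2 := ih (by omega)
      omega
  have := hall n le_rfl
  rw [hqn] at this
  simp only at this
  omega

end KBT
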