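import Pool.Agent.KBT.Fone
import Pool.Agent.KBT.Wlu
import Pool.Agent.KBT.SeqExt

set_option autoImplicit false

namespace KBT

open Filter

variable {I W : Type*}

theorem bl_self (𝒲 : Ultrafilter I) {R : W → W → Prop} (z : I → W) (r : ℕ) :
    z ∈ Bl 𝒲 R z r := bl_mono 𝒲 (Nat.zero_le r) (EventuallyEq.refl _ _)

/-- A family of elements of a ball is connected with the centre in the larger ultrapower. -/
theorem glem (𝒲 : Ultrafilter I) {R : W → W → Prop} (hR : ∀ x y, R x y → R y x) {h : ℕ}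
    (hH : ¬ HG2 R h) (z : I → W) (r : ℕ)
    (hfin : ∀ t < r, (Ds 𝒲 R '' Bl 𝒲 R z t).Finite) (f : ℕ → (I → W))
    (hf : ∀ a, f a ∈ Bl 𝒲 R z r) :
    Conn (prodU (hyperfilter ℕ) 𝒲) R (fun q => z q.2) (fun q => f q.1 q.2) := by
  classical
  induction r generalizing f with
  | zero =>
    apply conn_of_eq
    show ∀ᶠ q in ((prodU (hyperfilter ℕ) 𝒲 : Ultrafilter (ℕ × I)) : Filter (ℕ × I)),
      z q.2 = f q.1 q.2
    rw [ev_prodU]
    exact Eventually.of_forall fun a => hf a
  | succ r ih =>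
    have ih' := ih (fun t ht => hfin t (by omega))
    have hdec : (∀ᶠ a in (hyperfilter ℕ : Filter ℕ), f a ∈ Bl 𝒲 R z r) ∨
        (∀ᶠ a in (hyperfilter ℕ : Filter ℕ), ∃ g ∈ Bl 𝒲 R z r, Ex 𝒲 R g (f a)) := by
      rw [← Ultrafilter.eventually_or]
      exact Eventually.of_forall fun a => hf a
    rcases hdec with h1 | h1
    · have h2 := ih' (fun a => if f a ∈ Bl 𝒲 R z r then f a else z) (fun a => by
        split_ifs with h3
        · exact h3
        · exact bl_self 𝒲 z r)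
      refine conn_trans _ h2 (conn_of_eq _ ?_)
      show ∀ᶠ q in ((prodU (hyperfilter ℕ) 𝒲 : Ultrafilter (ℕ × I)) : Filter (ℕ × I)),
        (if f q.1 ∈ Bl 𝒲 R z r then f q.1 else z) q.2 = f q.1 q.2
      rw [ev_prodU]
      filter_upwards [h1] with a ha
      refine Eventually.of_forall fun i => ?_
      simp only [ha, if_true]
    · let g : ℕ → (I → W) := fun a =>
        if ha : ∃ g ∈ Bl 𝒲 R z r, Ex 𝒲 R g (f a) then ha.choose else z
      have hg : ∀ a, g a ∈ Bl 𝒲 R z r := by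
        intro a
        dsimp only [g]
        split_ifs with h3
        · exact h3.choose_spec.1
        · exact bl_self 𝒲 z r
      have hgE : ∀ᶠ a in (hyperfilter ℕ : Filter ℕ), Ex 𝒲 R (f a) (g a) := by
        filter_upwards [h1] with a ha
        apply Ex_symm 𝒲 hR hH
        dsimp only [g]
        simp only [ha, dite_true]
        exact ha.choose_spec.2
      have h2 := ih' g hg
      refine conn_trans _ h2 (conn_of_ex _ (Ex_symm _ hR hH ?_))
      obtain ⟨D, _, hD⟩ := ev_pigeon (hyperfilter ℕ) (hfin r (by omega))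
        (fun a => Ds 𝒲 R (g a)) (Eventually.of_forall fun a => ⟨g a, hg a, rfl⟩)
      have hRs : Rs (prodU (hyperfilter ℕ) 𝒲) R (fun q => f q.1 q.2) (fun q => g q.1 q.2) ↔
          ∀ᶠ a in (hyperfilter ℕ : Filter ℕ), Rs 𝒲 R (f a) (g a) := by
        unfold Rs
        rw [ev_prodU]
      have hDl : Dl (prodU (hyperfilter ℕ) 𝒲) R (fun q => f q.1 q.2) (fun q => g q.1 q.2) ↔
          ∀ᶠ a in (hyperfilter ℕ : Filter ℕ), Dl 𝒲 R (f a) (g a) := by
        unfold Dl
        rw [ev_prodU]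
        have key : ∀ w : W, (∀ᶠ q in ((prodU (hyperfilter ℕ) 𝒲 : Ultrafilter (ℕ × I)) :
            Filter (ℕ × I)), R w (g q.1 q.2)) ↔ w ∈ D := by
          intro w
          rw [ev_prodU]
          have : (∀ᶠ a in (hyperfilter ℕ : Filter ℕ), ∀ᶠ i in (𝒲 : Filter I), R w (g a i)) ↔
              ∀ᶠ a in (hyperfilter ℕ : Filter ℕ), w ∈ D := by
            refine eventually_congr ?_
            filter_upwards [hD] with a ha
            rw [← ha]
            rfl
          rw [this, eventually_const]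
        refine eventually_congr ?_
        filter_upwards [hD] with a ha
        refine eventually_congr (Eventually.of_forall fun i => ?_)
        rw [key, ← ha]
        rfl
      unfold Ex
      rw [hRs, hDl]
      intro hcon
      have h3 : ∀ᶠ a in (hyperfilter ℕ : Filter ℕ), ¬ (Rs 𝒲 R (f a) (g a) ↔ Dl 𝒲 R (f a) (g a)) :=
        hgE
      by_cases h4 : ∀ᶠ a in (hyperfilter ℕ : Filter ℕ), Rs 𝒲 R (f a) (g a)
      · obtain ⟨a, ⟨h5, h6⟩, h7⟩ := ((h4.and (hcon.mp h4)).and h3).exists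
        exact h7 ⟨fun _ => h6, fun _ => h5⟩
      · have h4' : ¬ ∀ᶠ a in (hyperfilter ℕ : Filter ℕ), Dl 𝒲 R (f a) (g a) :=
          fun h5 => h4 (hcon.mpr h5)
        rw [ev_not] at h4 h4'
        obtain ⟨a, ⟨h5, h6⟩, h7⟩ := ((h4.and h4').and h3).exists
        exact h7 ⟨fun h8 => absurd h8 h5, fun h8 => absurd h8 h6⟩

/-- Finitely many types in every ball. -/
theorem finball (𝒲 : Ultrafilter I) {R : W → W → Prop} (hR : ∀ x y, R x y → R y x) {h m : ℕ}
    (hH : ¬ HG2 R h) (hX : ¬ PP R m) (z : I → W) (r : ℕ) :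
    (Ds 𝒲 R '' Bl 𝒲 R z r).Finite := by
  classical
  induction r using Nat.strong_induction_on with
  | _ r ih =>
  rcases r with _ | r
  · refine (Set.finite_singleton (Ds 𝒲 R z)).subset ?_
    rintro _ ⟨y, hy, rfl⟩
    have hy' : z =ᶠ[(𝒲 : Filter I)] y := hy
    rw [Set.mem_singleton_iff]
    ext s
    unfold Ds
    refine eventually_congr ?_
    filter_upwards [hy'] with i hi
    rw [hi]
  · by_contra hinf
    obtain ⟨x, D, hxinj, hD, hxD⟩ := seqext _ hinf
    choose y hy hyD using hD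
    have h1 := glem 𝒲 hR hH z (r+1) ih y hy
    set 𝒜 : Ultrafilter (ℕ × I) := prodU (hyperfilter ℕ) 𝒲 with h𝒜
    have hex : Ex 𝒜 R (fun q => x q.1) (fun q => y q.1 q.2) := by
      have hRs : Rs 𝒜 R (fun q => x q.1) (fun q => y q.1 q.2) ↔
          ∀ᶠ a in (hyperfilter ℕ : Filter ℕ), x a ∈ D a := by
        unfold Rs
        rw [h𝒜, ev_prodU]
        refine eventually_congr (Eventually.of_forall fun a => ?_)
        rw [← hyD]
        rfl
      have hDl : Dl 𝒜 R (fun q => x q.1) (fun q => y q.1 q.2) ↔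
          ∀ᶠ a in (hyperfilter ℕ : Filter ℕ), ∀ᶠ b in (hyperfilter ℕ : Filter ℕ), x b ∈ D a := by
        unfold Dl
        rw [h𝒜, ev_prodU]
        have e1 : (∀ᶠ a in (hyperfilter ℕ : Filter ℕ), ∀ᶠ i in (𝒲 : Filter I),
            ∀ᶠ q in ((prodU (hyperfilter ℕ) 𝒲 : Ultrafilter (ℕ × I)) : Filter (ℕ × I)),
              R (x (a, i).1) (y q.1 q.2)) ↔
            ∀ᶠ a in (hyperfilter ℕ : Filter ℕ), ∀ᶠ b in (hyperfilter ℕ : Filter ℕ),
              ∀ᶠ j in (𝒲 : Filter I), R (x a) (y b j) := by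
          refine eventually_congr (Eventually.of_forall fun a => ?_)
          dsimp only
          rw [eventually_const, ev_prodU]
        rw [e1]
        rw [swap (hyperfilter ℕ) (hyperfilter ℕ)
          (fun a b => ∀ᶠ j in (𝒲 : Filter I), R (x a) (y b j))
          (hg_lim 𝒲 R (fun a _ => x a) (fun b j => y b j) hH)]
        refine eventually_congr (Eventually.of_forall fun b => ?_)
        refine eventually_congr (Eventually.of_forall fun a => ?_)
        rw [← hyD]
        rfl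
      unfold Ex
      rw [hRs, hDl]
      intro hcon
      by_cases h4 : ∀ᶠ a in (hyperfilter ℕ : Filter ℕ), x a ∈ D a
      · obtain ⟨a, ⟨h5, h6⟩, h7⟩ := ((h4.and (hcon.mp h4)).and hxD).exists
        exact h7 ⟨fun _ => h6, fun _ => h5⟩
      · have h4' : ¬ ∀ᶠ a in (hyperfilter ℕ : Filter ℕ), ∀ᶠ b in (hyperfilter ℕ : Filter ℕ),
            x b ∈ D a := fun h5 => h4 (hcon.mpr h5)
        rw [ev_not] at h4 h4'
        obtain ⟨a, ⟨h5, h6⟩, h7⟩ := ((h4.and h4').and hxD).exists
        exact h7 ⟨fun h8 => absurd h8 h5, fun h8 => absurd h8 h6⟩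
    have h2 : Conn 𝒜 R (fun q => x q.1) (fun q => z q.2) :=
      conn_trans _ (conn_of_ex _ hex) (Conn_symm _ hR hH h1)
    -- two copies
    have h3 : Conn (prodU 𝒜 𝒜) R ((fun q : ℕ × I => x q.1) ∘ (fun q : (ℕ × I) × (ℕ × I) =>
        ((q.1.1, q.2.2) : ℕ × I))) ((fun q : ℕ × I => z q.2) ∘ (fun q : (ℕ × I) × (ℕ × I) =>
        ((q.1.1, q.2.2) : ℕ × I))) := by
      refine marg_conn 𝒜 (prodU 𝒜 𝒜) _ ?_ h2
      intro P
      rw [ev_prodU, h𝒜]
      rw [ev_prodU, ev_prodU]
      refine eventually_congr (Eventually.of_forall fun a => ?_)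
      dsimp only
      rw [eventually_const, ev_prodU]
      dsimp only
      rw [eventually_const]
    have h4 : Conn (prodU 𝒜 𝒜) R ((fun q : ℕ × I => x q.1) ∘ (Prod.snd : (ℕ × I) × (ℕ × I) → _))
        ((fun q : ℕ × I => z q.2) ∘ (Prod.snd : (ℕ × I) × (ℕ × I) → _)) := by
      refine marg_conn 𝒜 (prodU 𝒜 𝒜) _ ?_ h2
      intro P
      rw [ev_prodU]
      dsimp only
      rw [eventually_const]
    have h5 : Conn (prodU 𝒜 𝒜) R ((fun q : ℕ × I => x q.1) ∘ Prod.fst)
        ((fun q : ℕ × I => x q.1) ∘ Prod.snd) :=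
      conn_trans _ h3 (Conn_symm _ hR hH h4)
    rcases conn_cases _ h5 with h6 | h6
    · have h7 : ∀ᶠ p in (𝒜 : Filter (ℕ × I)), ∀ᶠ q in (𝒜 : Filter (ℕ × I)), x p.1 = x q.1 := h6
      obtain ⟨p, hp⟩ := h7.exists
      have h8 : ∀ᶠ a in (hyperfilter ℕ : Filter ℕ), x p.1 = x a := by
        rw [h𝒜, ev_prodU] at hp
        filter_upwards [hp] with a ha
        rwa [eventually_const] at ha
      have h9 : ∀ᶠ a in (hyperfilter ℕ : Filter ℕ), a ≠ p.1 :=
        Filter.hyperfilter_le_cofinite (Set.finite_singleton p.1).compl_mem_cofinite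
      obtain ⟨a, h10, h11⟩ := (h8.and h9).exists
      exact h11 (hxinj h10).symm
    · exact wlu 𝒜 hR hH hX (fun q : ℕ × I => x q.1) h6

end KBT
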