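import Pool.Agent.KBT.Defs

set_option autoImplicit false

namespace KBT

/-- A shortest path has no chords. -/
theorem chordless {V : Type*} {E : V → V → Prop} {x y : V} (h : Relation.ReflTransGen E x y) :
    ∃ (n : ℕ) (p : ℕ → V), p 0 = x ∧ p n = y ∧ (∀ i < n, E (p i) (p (i+1))) ∧
      ∀ i j, i + 2 ≤ j → j ≤ n → ¬ E (p i) (p j) := by
  classical
  have hex : ∃ n : ℕ, ∃ p : ℕ → V, p 0 = x ∧ p n = y ∧ ∀ i < n, E (p i) (p (i+1)) := by
    induction h with
    | refl => exact ⟨0, fun _ => x, rfl, rfl, fun i hi => absurd hi (Nat.not_lt_zero i)⟩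
    | @tail b c _ hbc ih =>
      obtain ⟨n, p, h0, hn, hp⟩ := ih
      refine ⟨n + 1, fun t => if t ≤ n then p t else c, by simp [h0], by simp, ?_⟩
      intro i hi
      rcases Nat.lt_succ_iff_lt_or_eq.mp hi with h1 | h1
      · have : i + 1 ≤ n := h1
        simp only [this, if_true, h1.le]
        exact hp i h1
      · subst h1
        simp only [le_refl, if_true]
        have : ¬ (i + 1 ≤ i) := by omega
        simp only [this, if_false, hn]
        exact hbc
  have hmin : ∀ k < Nat.find hex, ¬ ∃ p : ℕ → V, p 0 = x ∧ p k = y ∧ ∀ i < k, E (p i) (p (i+1)) :=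
    fun k hk => Nat.find_min hex hk
  obtain ⟨p, h0, hn, hp⟩ := Nat.find_spec hex
  refine ⟨Nat.find hex, p, h0, hn, hp, ?_⟩
  intro i j hij hj hE
  set n := Nat.find hex with hndef
  refine hmin (n - (j - i - 1)) (by omega) ⟨fun t => if t ≤ i then p t else p (t + (j - i - 1)), ?_, ?_, ?_⟩
  · simp [h0]
  · have h1 : ¬ (n - (j - i - 1) ≤ i) := by omega
    have h2 : n - (j - i - 1) + (j - i - 1) = n := by omega
    simp only [h1, if_false, h2, hn]
  · intro t ht
    by_cases h1 : t + 1 ≤ i
    · have h2 : t ≤ i := by omega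
      simp only [h1, h2, if_true]
      exact hp t (by omega)
    · by_cases h2 : t ≤ i
      · have h3 : t = i := by omega
        subst h3
        simp only [h1, le_refl, if_true, if_false]
        have h4 : t + 1 + (j - t - 1) = j := by omega
        rw [h4]
        exact hE
      · simp only [h1, h2, if_false]
        have h4 : t + 1 + (j - i - 1) = (t + (j - i - 1)) + 1 := by omega
        rw [h4]
        exact hp _ (by omega)

end KBT
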