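import Pool.Agent.KBT.Swap

set_option autoImplicit false

namespace KBT

open Filter

/-- Definability of the sets Ds. -/
theorem defin {I W : Type*} (𝒲 : Ultrafilter I) {R : W → W → Prop} {h : ℕ} (hH : ¬ HG2 R h)
    (y : I → W) :
    ∃ S : Finset W, ∀ s s', (∀ t ∈ S, (R s t ↔ R s' t)) → (s ∈ Ds 𝒲 R y ↔ s' ∈ Ds 𝒲 R y) := by
  classical
  by_contra hcon
  push Not at hcon
  have hch : ∀ S : Finset W, ∃ s s', (∀ t ∈ S, (R s t ↔ R s' t)) ∧ s ∈ Ds 𝒲 R y ∧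
      s' ∉ Ds 𝒲 R y := by
    intro S
    obtain ⟨s, s', h1, h2⟩ := hcon S
    rcases h2 with h2 | h2
    · exact ⟨s, s', h1, h2.1, h2.2⟩
    · exact ⟨s', s, fun t ht => (h1 t ht).symm, h2.2, h2.1⟩
  choose a b hab ha hb using hch
  set 𝒬 : Ultrafilter (Finset W) := Ultrafilter.of atTop with h𝒬
  have hle : (𝒬 : Filter (Finset W)) ≤ atTop := Ultrafilter.of_le atTop
  have hcm : ∀ (c : Finset W → W), ¬ HG2 (fun (S : Finset W) (i : I) => R (c S) (y i)) h := by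
    rintro c ⟨p, q, hpq⟩
    exact hH ⟨fun i => c (p i), fun j => y (q j), hpq⟩
  have e1 : ∀ᶠ S in (𝒬 : Filter (Finset W)), ∀ᶠ i in (𝒲 : Filter I), R (a S) (y i) :=
    Eventually.of_forall ha
  have e2 : ¬ ∀ᶠ S in (𝒬 : Filter (Finset W)), ∀ᶠ i in (𝒲 : Filter I), R (b S) (y i) := by
    intro h1
    obtain ⟨S, hS⟩ := h1.exists
    exact hb S hS
  rw [swap 𝒬 𝒲 _ (hcm a)] at e1
  rw [swap 𝒬 𝒲 _ (hcm b)] at e2
  apply e2
  filter_upwards [e1] with i hi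
  have h3 : ∀ᶠ S in (𝒬 : Filter (Finset W)), y i ∈ S := by
    apply hle
    filter_upwards [eventually_ge_atTop ({y i} : Finset W)] with S hS
    exact hS (Finset.mem_singleton_self _)
  filter_upwards [hi, h3] with S h4 h5
  exact (hab S (y i) h5).mp h4

end KBT
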