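import Pool.Agent.KBT.Ball
import Pool.Agent.KBT.Defin

set_option autoImplicit false

namespace KBT

open Filter

variable {I W : Type*}

/-- The type of almost every value of y. -/
theorem tp_lim (𝒲 : Ultrafilter I) {R : W → W → Prop} (hR : ∀ x y, R x y → R y x)
    (S : Finset W) (y : I → W) :
    ∀ᶠ i in (𝒲 : Filter I), tp R S (y i) = {s | s ∈ S ∧ s ∈ Ds 𝒲 R y} := by
  have h1 : ∀ᶠ i in (𝒲 : Filter I), ∀ s ∈ S, (R s (y i) ↔ s ∈ Ds 𝒲 R y) := by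
    rw [eventually_all_finset]
    exact fun s _ => ev_dec 𝒲 (fun i => R s (y i))
  filter_upwards [h1] with i hi
  ext s
  constructor
  · rintro ⟨h2, h3⟩
    exact ⟨h2, (hi s h2).mp (hR _ _ h3)⟩
  · rintro ⟨h2, h3⟩
    exact ⟨h2, hR _ _ ((hi s h2).mpr h3)⟩

/-- The component of z is closed for a flip over a finite set. -/
theorem closed (𝒲 : Ultrafilter I) {R : W → W → Prop} (hR : ∀ x y, R x y → R y x) {h m : ℕ}
    (hH : ¬ HG2 R h) (hX : ¬ PP R m) (z : I → W) :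
    ∃ (S : Finset W) (Φ : Set W → Set W → Prop), (∀ a b, Φ a b → Φ b a) ∧
      ∀ x y : I → W, Conn 𝒲 R z y → ¬ Conn 𝒲 R z x →
        (Rs 𝒲 R x y ↔ Φ {s | s ∈ S ∧ s ∈ Ds 𝒲 R x} {s | s ∈ S ∧ s ∈ Ds 𝒲 R y}) := by
  classical
  set 𝒟 : Set (Set W) := Ds 𝒲 R '' {y | Conn 𝒲 R z y} with h𝒟
  have hfin : 𝒟.Finite := by
    refine (finball 𝒲 hR hH hX z m).subset ?_
    rintro _ ⟨y, hy, rfl⟩
    exact ⟨y, bl_of_conn 𝒲 hR hH hX hy, rfl⟩
  have hdef : ∀ D : Set W, ∃ S : Finset W, D ∈ 𝒟 →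
      ∀ s s', (∀ t ∈ S, (R s t ↔ R s' t)) → (s ∈ D ↔ s' ∈ D) := by
    intro D
    by_cases hD : D ∈ 𝒟
    · obtain ⟨y, _, rfl⟩ := hD
      obtain ⟨S, hS⟩ := defin 𝒲 hH y
      exact ⟨S, fun _ => hS⟩
    · exact ⟨∅, fun h => absurd h hD⟩
  choose SD hSD using hdef
  have hsep : ∀ D D' : Set W, ∃ T : Finset W, D ≠ D' → ∃ t ∈ T, ¬ (t ∈ D ↔ t ∈ D') := by
    intro D D'
    by_cases hDD : D = D'
    · exact ⟨∅, fun h => absurd hDD h⟩
    · have : ∃ t, ¬ (t ∈ D ↔ t ∈ D') := by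
        by_contra hcon
        push Not at hcon
        exact hDD (Set.ext hcon)
      obtain ⟨t, ht⟩ := this
      exact ⟨{t}, fun _ => ⟨t, Finset.mem_singleton_self t, ht⟩⟩
  choose SP hSP using hsep
  let S : Finset W := (hfin.toFinset.biUnion SD) ∪
    (hfin.toFinset.biUnion fun D => hfin.toFinset.biUnion fun D' => SP D D')
  let T : Set W → Set W := fun D => {s | s ∈ S ∧ s ∈ D}
  have hTinj : ∀ D ∈ 𝒟, ∀ D' ∈ 𝒟, T D = T D' → D = D' := by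
    intro D hD D' hD' hT
    by_contra hne
    obtain ⟨t, ht, h1⟩ := hSP D D' hne
    have htS : t ∈ S := by
      refine Finset.mem_union_right _ ?_
      rw [Finset.mem_biUnion]
      refine ⟨D, hfin.mem_toFinset.mpr hD, ?_⟩
      rw [Finset.mem_biUnion]
      exact ⟨D', hfin.mem_toFinset.mpr hD', ht⟩
    apply h1
    have h2 : t ∈ T D ↔ t ∈ T D' := by rw [hT]
    constructor
    · intro h3
      exact (h2.mp ⟨htS, h3⟩).2
    · intro h3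
      exact (h2.mpr ⟨htS, h3⟩).2
  have hP1 : ∀ D ∈ 𝒟, ∀ w w', tp R S w = tp R S w' → (w ∈ D ↔ w' ∈ D) := by
    intro D hD w w' hw
    refine hSD D hD w w' ?_
    intro t ht
    have htS : t ∈ S := by
      refine Finset.mem_union_left _ ?_
      rw [Finset.mem_biUnion]
      exact ⟨D, hfin.mem_toFinset.mpr hD, ht⟩
    have h2 : t ∈ tp R S w ↔ t ∈ tp R S w' := by rw [hw]
    constructor
    · intro h3
      exact (h2.mp ⟨htS, h3⟩).2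
    · intro h3
      exact (h2.mpr ⟨htS, h3⟩).2
  have hP2 : ∀ D ∈ 𝒟, ∀ (y : I → W) (w : W), tp R S w = T (Ds 𝒲 R y) →
      (w ∈ D ↔ ∀ᶠ i in (𝒲 : Filter I), y i ∈ D) := by
    intro D hD y w hw
    have h1 : ∀ᶠ i in (𝒲 : Filter I), (w ∈ D ↔ y i ∈ D) := by
      filter_upwards [tp_lim 𝒲 hR S y] with i hi
      exact hP1 D hD w (y i) (hw.trans hi.symm)
    constructor
    · intro h2
      filter_upwards [h1] with i hi
      exact hi.mp h2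
    · intro h2
      obtain ⟨i, hi, h3⟩ := (h1.and h2).exists
      exact hi.mpr h3
  let Φ : Set W → Set W → Prop := fun τ τ' =>
    (∃ D ∈ 𝒟, T D = τ' ∧ ∃ w, tp R S w = τ ∧ w ∈ D) ∨
    (∃ D ∈ 𝒟, T D = τ ∧ ∃ w, tp R S w = τ' ∧ w ∈ D)
  refine ⟨S, Φ, fun a b hab => hab.symm, ?_⟩
  intro x y hy hx
  have hxy : Rs 𝒲 R x y ↔ Dl 𝒲 R x y := by
    by_contra hcon
    exact hx (conn_trans 𝒲 hy (conn_of_ex 𝒲 (Ex_symm 𝒲 hR hH hcon)))
  have hDl : ∀ f g : I → W, Dl 𝒲 R f g ↔ ∀ᶠ i in (𝒲 : Filter I), f i ∈ Ds 𝒲 R g :=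
    fun f g => Iff.rfl
  have hyD : Ds 𝒲 R y ∈ 𝒟 := ⟨y, hy, rfl⟩
  rw [hxy]
  show Dl 𝒲 R x y ↔ Φ (T (Ds 𝒲 R x)) (T (Ds 𝒲 R y))
  constructor
  · intro h1
    rw [hDl] at h1
    obtain ⟨i, h2, h3⟩ := (h1.and (tp_lim 𝒲 hR S x)).exists
    exact Or.inl ⟨Ds 𝒲 R y, hyD, rfl, x i, h3, h2⟩
  · rintro (⟨D, hD, hT, w, hw, hwD⟩ | ⟨D, hD, hT, w, hw, hwD⟩)
    · have hDy := hTinj D hD _ hyD hT
      subst hDy
      rw [hDl]
      exact (hP2 _ hD x w hw).mp hwD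
    · have h1 : ∀ᶠ i in (𝒲 : Filter I), y i ∈ D := (hP2 D hD y w hw).mp hwD
      obtain ⟨y', hy', rfl⟩ := hD
      have h2 : Dl 𝒲 R y' y := (Dl_symm 𝒲 hR hH y y').mp h1
      rw [hDl] at h2
      obtain ⟨i, h3, h4⟩ := (h2.and (tp_lim 𝒲 hR S y')).exists
      rw [hDl]
      refine (hP2 _ hyD x (y' i) ?_).mp h3
      exact h4.trans hT

end KBT
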