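import Pool.Agent.KBT.Defs

set_option autoImplicit false

namespace KBT

/-- Gluing: if R is given by finitely many types between different components, and the components
are uniformly tame, then the whole set is tame. -/
theorem dl (c k N : ℕ) : ∃ g : ℕ, ∀ {V ι : Type} (R : V → V → Prop) (C : Set V) (κ : V → Fin k)
    (Φ : Fin k → Fin k → Prop) (comp : V → ι)
    (_ : ∀ x ∈ C, ∀ y ∈ C, comp x ≠ comp y → (R x y ↔ Φ (κ x) (κ y)))
    (_ : ∀ w, Tame R (C ∩ {x | comp x = w}) (c * k) N), Tame R C c g := by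
  classical
  let Code : Type := (Fin N → Set (Fin c × Fin k)) × (Fin N → Fin N → Prop)
  refine ⟨Fintype.card (Code × Fin N), ?_⟩
  intro V ι R C κ Φ comp h1 h2 χ
  have hch : ∀ w, ∃ π : V → Fin N, Stable R (C ∩ {x | comp x = w}) π ∧
      ∀ x ∈ C ∩ {x | comp x = w}, ∀ y ∈ C ∩ {x | comp x = w}, π x = π y →
        χ x = χ y ∧ κ x = κ y := by
    intro w
    obtain ⟨π, h3, h4⟩ := h2 w (fun x => finProdFinEquiv (χ x, κ x))
    refine ⟨π, h3, ?_⟩
    intro x hx y hy hxy
    have := finProdFinEquiv.injective (h4 x hx y hy hxy)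
    exact ⟨congrArg Prod.fst this, congrArg Prod.snd this⟩
  choose π hπ1 hπ2 using hch
  let code : ι → Code := fun w =>
    (fun i => {q | ∃ x ∈ C ∩ {x | comp x = w}, π w x = i ∧ q = (χ x, κ x)},
     fun i j => ∃ x ∈ C ∩ {x | comp x = w}, π w x = i ∧ ∃ z ∈ C ∩ {x | comp x = w},
       π w z = j ∧ R x z)
  let pp : V → Code × Fin N := fun x => (code (comp x), π (comp x) x)
  let e : Code × Fin N ≃ Fin (Fintype.card (Code × Fin N)) := Fintype.equivFin _
  have hkey : ∀ x ∈ C, ∀ w, code (comp x) = code w →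
      ∃ y ∈ C ∩ {x | comp x = w}, π w y = π (comp x) x ∧ χ y = χ x ∧ κ y = κ x := by
    intro x hx w hw
    have h3 : (χ x, κ x) ∈ (code (comp x)).1 (π (comp x) x) := ⟨x, ⟨hx, rfl⟩, rfl, rfl⟩
    rw [hw] at h3
    obtain ⟨y, hy, h4, h5⟩ := h3
    exact ⟨y, hy, h4, (congrArg Prod.fst h5).symm, (congrArg Prod.snd h5).symm⟩
  have hsame : ∀ x ∈ C, ∀ y ∈ C, pp x = pp y → χ x = χ y ∧ κ x = κ y := by
    intro x hx y hy hxy
    have h3 : code (comp x) = code (comp y) := congrArg Prod.fst hxy
    have h4 : π (comp x) x = π (comp y) y := congrArg Prod.snd hxy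
    obtain ⟨y', hy', h5, h6, h7⟩ := hkey x hx (comp y) h3
    have h8 := hπ2 (comp y) y' hy' y ⟨hy, rfl⟩ (h5.trans h4)
    exact ⟨h6.symm.trans h8.1, h7.symm.trans h8.2⟩
  refine ⟨fun x => e (pp x), ?_, ?_⟩
  · intro x hx y hy hxy z hz hxz
    have hpp : pp x = pp y := e.injective hxy
    have h3 : code (comp x) = code (comp y) := congrArg Prod.fst hpp
    have h4 : π (comp x) x = π (comp y) y := congrArg Prod.snd hpp
    have h5 := hsame x hx y hy hpp
    by_cases hzx : comp z = comp x
    · have h6 : (code (comp x)).2 (π (comp x) x) (π (comp x) z) :=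
        ⟨x, ⟨hx, rfl⟩, rfl, z, ⟨hz, hzx⟩, rfl, hxz⟩
      rw [h3] at h6
      obtain ⟨x', hx', h7, z', hz', h8, h9⟩ := h6
      obtain ⟨z'', hz'', h10, h11⟩ := hπ1 (comp y) x' hx' y ⟨hy, rfl⟩ (h7.trans h4) z' hz' h9
      refine ⟨z'', hz''.1, h10, ?_⟩
      dsimp only
      apply congrArg e
      have h12 : comp z'' = comp y := hz''.2
      refine Prod.ext ?_ ?_
      · show code (comp z'') = code (comp z)
        rw [h12, hzx, h3]
      · show π (comp z'') z'' = π (comp z) z
        rw [h12, hzx, h11, h8]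
    · have h6 : Φ (κ x) (κ z) := (h1 x hx z hz (Ne.symm hzx)).mp hxz
      rw [h5.2] at h6
      by_cases hzy : comp z = comp y
      · have h7 : code (comp z) = code (comp x) := by rw [hzy, h3]
        obtain ⟨z', hz', h8, h9, h10⟩ := hkey z hz (comp x) h7
        have h11 : comp z' = comp x := hz'.2
        have h12 : comp y ≠ comp z' := by
          rw [h11, ← hzy]
          exact hzx
        refine ⟨z', hz'.1, (h1 y hy z' hz'.1 h12).mpr (by rw [h10]; exact h6), ?_⟩
        dsimp only
        apply congrArg e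
        refine Prod.ext ?_ ?_
        · show code (comp z') = code (comp z)
          rw [h11, h7]
        · show π (comp z') z' = π (comp z) z
          rw [h11, h8]
      · exact ⟨z, hz, (h1 y hy z hz (fun h => hzy h.symm)).mpr h6, rfl⟩
  · intro x hx y hy hxy
    exact (hsame x hx y hy (e.injective hxy)).1

end KBT
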