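import Mathlib

/-!
# Definitions for the theorem on symmetric frames (logics above KB)

Everything lives in the namespace KBT.  R is a binary relation on a type V (usually symmetric).
-/

set_option autoImplicit false

namespace KBT

open Filter

/-- A (two sorted) half graph of height h inside the relation ρ. -/
def HG2 {α β : Type*} (ρ : α → β → Prop) (h : ℕ) : Prop :=
  ∃ (a : ℕ → α) (b : ℕ → β), ∀ i < h, ∀ j < h, (ρ (a i) (b j) ↔ i < j)

/-- The pattern of two parallel runs of length m. -/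
def PP {V : Type*} (R : V → V → Prop) (m : ℕ) : Prop :=
  ∃ v w : ℕ → V,
    (∀ a < m, (R (v (a+1)) (v a) ↔ ¬ R (v (a+1)) (w a)) ∧
              (R (w (a+1)) (v a) ↔ ¬ R (w (a+1)) (w a)) ∧
              (R (v (a+1)) (v a) ↔ R (w (a+1)) (w a))) ∧
    (∀ a b, a + 2 ≤ b → b ≤ m →
        (R (v b) (v a) ↔ R (v b) (w a)) ∧ (R (w b) (v a) ↔ R (w b) (w a)))

/-- π is stable on C: points of C in the same π-class see the same π-classes of points of C. -/
def Stable {V α : Type*} (R : V → V → Prop) (C : Set V) (π : V → α) : Prop :=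
  ∀ x ∈ C, ∀ y ∈ C, π x = π y → ∀ z ∈ C, R x z → ∃ z' ∈ C, R y z' ∧ π z' = π z

/-- Every colouring with c colours has a stable refinement (on C) with N classes. -/
def Tame {V : Type*} (R : V → V → Prop) (C : Set V) (c N : ℕ) : Prop :=
  ∀ χ : V → Fin c, ∃ π : V → Fin N, Stable R C π ∧
    ∀ x ∈ C, ∀ y ∈ C, π x = π y → χ x = χ y

/-- The type of x over the finite set S. -/
def tp {V : Type*} (R : V → V → Prop) (S : Finset V) (x : V) : Set V := {s | s ∈ S ∧ R x s}

/-- The relation R flipped by a relation Φ on the types over S. -/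
def EF {V : Type*} (R : V → V → Prop) (S : Finset V) (Φ : Set V → Set V → Prop) (x y : V) :
    Prop :=
  ¬ (R x y ↔ Φ (tp R S x) (tp R S y))

/-- The relation R on (representatives of elements of) the ultrapower. -/
def Rs {I W : Type*} (𝒲 : Ultrafilter I) (R : W → W → Prop) (f g : I → W) : Prop :=
  ∀ᶠ i in (𝒲 : Filter I), R (f i) (g i)

/-- The default relation of two elements of the ultrapower: the iterated limit. -/
def Dl {I W : Type*} (𝒲 : Ultrafilter I) (R : W → W → Prop) (f g : I → W) : Prop :=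
  ∀ᶠ i in (𝒲 : Filter I), ∀ᶠ j in (𝒲 : Filter I), R (f i) (g j)

/-- Exceptional pairs of elements of the ultrapower. -/
def Ex {I W : Type*} (𝒲 : Ultrafilter I) (R : W → W → Prop) (f g : I → W) : Prop :=
  ¬ (Rs 𝒲 R f g ↔ Dl 𝒲 R f g)

/-- Connected by exceptional pairs (and equality almost everywhere). -/
def Conn {I W : Type*} (𝒲 : Ultrafilter I) (R : W → W → Prop) (f g : I → W) : Prop :=
  Relation.ReflTransGen (fun f g : I → W => Ex 𝒲 R f g ∨ f =ᶠ[(𝒲 : Filter I)] g) f g

/-- The (definable) set of all points which see y. -/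
def Ds {I W : Type*} (𝒲 : Ultrafilter I) (R : W → W → Prop) (y : I → W) : Set W :=
  {s | ∀ᶠ i in (𝒲 : Filter I), R s (y i)}

/-- The ball of radius r around z for the exceptional pairs. -/
def Bl {I W : Type*} (𝒲 : Ultrafilter I) (R : W → W → Prop) (z : I → W) : ℕ → Set (I → W)
  | 0 => {y | z =ᶠ[(𝒲 : Filter I)] y}
  | r+1 => {y | y ∈ Bl 𝒲 R z r ∨ ∃ f ∈ Bl 𝒲 R z r, Ex 𝒲 R f y}

/-- The product ultrafilter: first coordinate first. -/
noncomputable def prodU {α β : Type*} (𝒰 : Ultrafilter α) (𝒱 : Ultrafilter β) :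
    Ultrafilter (α × β) :=
  𝒰.bind (fun a => 𝒱.map (Prod.mk a))

theorem ev_prodU {α β : Type*} (𝒰 : Ultrafilter α) (𝒱 : Ultrafilter β) (P : α × β → Prop) :
    (∀ᶠ p in (prodU 𝒰 𝒱 : Filter (α × β)), P p) ↔
      ∀ᶠ a in (𝒰 : Filter α), ∀ᶠ b in (𝒱 : Filter β), P (a, b) := by
  rfl

theorem ev_not {α : Type*} (𝒰 : Ultrafilter α) (P : α → Prop) :
    (¬ ∀ᶠ a in (𝒰 : Filter α), P a) ↔ ∀ᶠ a in (𝒰 : Filter α), ¬ P a :=
  (Ultrafilter.eventually_not).symm

/-- Bounded internal tameness fails: C is a sequence of subsets of V. -/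
def NT {V : Type*} (R : V → V → Prop) (C : ℕ → Set V) : Prop :=
  ∃ c : ℕ, ∀ N : ℕ, ∀ᶠ n in (hyperfilter ℕ : Filter ℕ), ¬ Tame R (C n) c N

end KBT
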