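import Pool.Agent.KBT.Defs

/-!
# The points of a modal algebra
-/

set_option autoImplicit false

namespace KBT

/-- The points (prime filters) of a Boolean algebra. -/
structure Pt (A : Type) [BooleanAlgebra A] where
  s : Set A
  inf : ∀ a b, a ⊓ b ∈ s ↔ a ∈ s ∧ b ∈ s
  compl : ∀ a, aᶜ ∈ s ↔ a ∉ s

/-- The elements generated by the family g with a box f. -/
inductive Gen {A : Type} [BooleanAlgebra A] {ι : Type} (f : A → A) (g : ι → A) : A → Prop
  | gen (i : ι) : Gen f g (g i)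
  | bot : Gen f g ⊥
  | compl (a : A) : Gen f g a → Gen f g aᶜ
  | inf (a b : A) : Gen f g a → Gen f g b → Gen f g (a ⊓ b)
  | box (a : A) : Gen f g a → Gen f g (f a)

variable {A : Type} [BooleanAlgebra A]

/-- The diamond. -/
def dia (f : A → A) (a : A) : A := (f aᶜ)ᶜ

/-- The relation between points. -/
def Rel (f : A → A) (F G : Pt A) : Prop := ∀ a, f a ∈ F.s → a ∈ G.s

namespace Pt

theorem bot_notMem (F : Pt A) : ⊥ ∉ F.s := by
  intro h
  have h1 : (⊥ : A) ⊓ ⊥ᶜ ∈ F.s := by simpa using h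
  rw [F.inf, F.compl] at h1
  exact h1.2 h1.1

theorem top_mem (F : Pt A) : ⊤ ∈ F.s := by
  have := F.bot_notMem
  rw [← F.compl, compl_bot] at this
  exact this

theorem mono (F : Pt A) {a b : A} (hab : a ≤ b) (ha : a ∈ F.s) : b ∈ F.s := by
  have h1 : a ⊓ b ∈ F.s := by rwa [inf_eq_left.mpr hab]
  exact ((F.inf a b).mp h1).2

theorem sup (F : Pt A) (a b : A) : a ⊔ b ∈ F.s ↔ a ∈ F.s ∨ b ∈ F.s := by
  have h1 : (a ⊔ b)ᶜ ∈ F.s ↔ (a ∉ F.s ∧ b ∉ F.s) := by
    rw [compl_sup, F.inf, F.compl, F.compl]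
  rw [F.compl] at h1
  tauto

end Pt

/-- Existence of points: a proper filter extends to a point. -/
theorem exists_pt_of_filter (S : Set A) (htop : ⊤ ∈ S) (hinf : ∀ a b, a ∈ S → b ∈ S → a ⊓ b ∈ S)
    (hup : ∀ a b, a ≤ b → a ∈ S → b ∈ S) (hbot : ⊥ ∉ S) : ∃ G : Pt A, S ⊆ G.s := by
  have hF : Order.IsPFilter S := by
    refine Order.IsPFilter.of_def ⟨⊤, htop⟩ ?_ (fun {a b} hab ha => hup a b hab ha)
    intro a ha b hb
    exact ⟨a ⊓ b, hinf a b ha hb, inf_le_left, inf_le_right⟩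
  have hdis : Disjoint ((hF.toPFilter : Order.PFilter A) : Set A)
      ((Order.Ideal.principal (⊥ : A) : Order.Ideal A) : Set A) := by
    rw [Set.disjoint_left]
    intro a ha hb
    have h1 : a ≤ ⊥ := hb
    have h2 : a ∈ S := ha
    exact hbot (le_bot_iff.mp h1 ▸ h2)
  obtain ⟨J, hJ, _, hFJ⟩ := DistribLattice.prime_ideal_of_disjoint_filter_ideal hdis
  have hmem : ∀ a b : A, a ⊓ b ∈ J ↔ a ∈ J ∨ b ∈ J := by
    intro a b
    constructor
    · exact fun h => hJ.mem_or_mem h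
    · rintro (h | h)
      · exact J.lower inf_le_left h
      · exact J.lower inf_le_right h
  have hproper : ⊤ ∉ J := by
    intro h
    rw [Set.disjoint_left] at hFJ
    exact hFJ (show (⊤ : A) ∈ ((hF.toPFilter : Order.PFilter A) : Set A) from htop) h
  refine ⟨⟨(J : Set A)ᶜ, ?_, ?_⟩, ?_⟩
  · intro a b
    rw [Set.mem_compl_iff, Set.mem_compl_iff, Set.mem_compl_iff]
    have := hmem a b
    simp only [SetLike.mem_coe]
    tauto
  · intro a
    rw [Set.mem_compl_iff, Set.mem_compl_iff]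
    simp only [SetLike.mem_coe, not_not]
    constructor
    · intro h
      exact hJ.mem_or_compl_mem.resolve_right h
    · intro h h'
      apply hproper
      have : a ⊔ aᶜ ∈ J := Order.Ideal.sup_mem h h'
      rwa [sup_compl_eq_top] at this
  · intro a ha
    rw [Set.disjoint_left] at hFJ
    exact hFJ (show a ∈ ((hF.toPFilter : Order.PFilter A) : Set A) from ha)

theorem exists_pt (a : A) (ha : a ≠ ⊥) : ∃ F : Pt A, a ∈ F.s := by
  obtain ⟨F, hF⟩ := exists_pt_of_filter {b : A | a ≤ b} le_top (fun b c hb hc => le_inf hb hc)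
    (fun b c hbc hb => le_trans hb hbc) (fun h => ha (le_bot_iff.mp h))
  exact ⟨F, hF (le_refl a)⟩

theorem le_of_pts (a b : A) (h : ∀ F : Pt A, a ∈ F.s → b ∈ F.s) : a ≤ b := by
  by_contra hab
  have h1 : a ⊓ bᶜ ≠ ⊥ := by
    intro h2
    apply hab
    rw [← sdiff_eq, sdiff_eq_bot_iff] at h2
    exact h2
  obtain ⟨F, hF⟩ := exists_pt _ h1
  rw [F.inf, F.compl] at hF
  exact hF.2 (h F hF.1)

variable {f : A → A}

theorem f_mono (hinf : ∀ a b : A, f (a ⊓ b) = f a ⊓ f b) {a b : A} (hab : a ≤ b) : f a ≤ f b := by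
  have : f a = f a ⊓ f b := by rw [← hinf, inf_eq_left.mpr hab]
  rw [this]
  exact inf_le_right

theorem dia_mono (hinf : ∀ a b : A, f (a ⊓ b) = f a ⊓ f b) {a b : A} (hab : a ≤ b) :
    dia f a ≤ dia f b := by
  unfold dia
  exact compl_le_compl (f_mono hinf (compl_le_compl hab))

/-- The diamond in terms of the relation. -/
theorem dia_mem (htop : f ⊤ = ⊤) (hinf : ∀ a b : A, f (a ⊓ b) = f a ⊓ f b) (F : Pt A) (a : A) :
    dia f a ∈ F.s ↔ ∃ G : Pt A, Rel f F G ∧ a ∈ G.s := by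
  constructor
  · intro h
    have h1 : f aᶜ ∉ F.s := by
      unfold dia at h
      rwa [F.compl] at h
    obtain ⟨G, hG⟩ := exists_pt_of_filter {c : A | f (c ⊔ aᶜ) ∈ F.s} (by
        show f (⊤ ⊔ aᶜ) ∈ F.s
        rw [top_sup_eq, htop]
        exact F.top_mem) (by
        intro b c hb hc
        show f ((b ⊓ c) ⊔ aᶜ) ∈ F.s
        rw [sup_inf_right, hinf, F.inf]
        exact ⟨hb, hc⟩) (by
        intro b c hbc hb
        exact F.mono (f_mono hinf (sup_le_sup_right hbc _)) hb) (by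
        show ¬ f (⊥ ⊔ aᶜ) ∈ F.s
        rwa [bot_sup_eq])
    refine ⟨G, ?_, ?_⟩
    · intro c hc
      exact hG (F.mono (f_mono hinf le_sup_left) hc)
    · apply hG
      show f (a ⊔ aᶜ) ∈ F.s
      rw [sup_compl_eq_top, htop]
      exact F.top_mem
  · rintro ⟨G, hFG, ha⟩
    unfold dia
    rw [F.compl]
    intro h
    have := hFG _ h
    rw [G.compl] at this
    exact this ha

theorem box_mem (htop : f ⊤ = ⊤) (hinf : ∀ a b : A, f (a ⊓ b) = f a ⊓ f b) (F : Pt A) (a : A) :
    f a ∈ F.s ↔ ∀ G : Pt A, Rel f F G → a ∈ G.s := by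
  have h1 := dia_mem htop hinf F aᶜ
  unfold dia at h1
  rw [compl_compl, F.compl] at h1
  constructor
  · intro h G hG
    exact hG a h
  · intro h
    by_contra hc
    obtain ⟨G, hG, hG2⟩ := h1.mp hc
    rw [G.compl] at hG2
    exact hG2 (h G hG)

theorem rel_symm (hB : ∀ a : A, a ≤ f (dia f a)) (F G : Pt A) (h : Rel f F G) : Rel f G F := by
  intro a ha
  by_contra hc
  have h1 : aᶜ ∈ F.s := (F.compl a).mpr hc
  have h2 := h _ (F.mono (hB aᶜ) h1)
  unfold dia at h2
  rw [compl_compl, G.compl] at h2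
  exact h2 ha

/-- In terms of points, when a point does not see another one. -/
theorem not_rel (F G : Pt A) (h : ¬ Rel f F G) : ∃ u ∈ G.s, dia f u ∉ F.s := by
  unfold Rel at h
  push Not at h
  obtain ⟨a, ha, hc⟩ := h
  refine ⟨aᶜ, (G.compl a).mpr hc, ?_⟩
  unfold dia
  rw [compl_compl, F.compl]
  exact fun h => h ha

theorem ne_pt (F G : Pt A) (h : F ≠ G) : ∃ d ∈ F.s, dᶜ ∈ G.s := by
  by_contra hcon
  push Not at hcon
  apply h
  have h1 : F.s = G.s := by
    ext a
    constructor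
    · intro ha
      have := hcon a ha
      rw [G.compl, not_not] at this
      exact this
    · intro ha
      by_contra hc
      have h2 := hcon aᶜ ((F.compl a).mpr hc)
      rw [compl_compl] at h2
      exact h2 ha
  cases F
  cases G
  simp only at h1
  subst h1
  rfl

end KBT
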