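import Pool.Agent.KBT.Swap

set_option autoImplicit false

namespace KBT

open Filter

theorem HG2_comap {α β α' β' : Type*} {ρ : α → β → Prop} {h : ℕ} (hh : ¬ HG2 ρ h)
    (f : α' → α) (g : β' → β) : ¬ HG2 (fun a b => ρ (f a) (g b)) h := by
  rintro ⟨a, b, hab⟩
  exact hh ⟨fun i => f (a i), fun j => g (b j), hab⟩

variable {I J W : Type*}

theorem Rs_symm (𝒲 : Ultrafilter I) {R : W → W → Prop} (hR : ∀ x y, R x y → R y x)
    (f g : I → W) : Rs 𝒲 R f g ↔ Rs 𝒲 R g f :=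
  ⟨fun h => h.mono fun i hi => hR _ _ hi, fun h => h.mono fun i hi => hR _ _ hi⟩

theorem Dl_symm (𝒲 : Ultrafilter I) {R : W → W → Prop} (hR : ∀ x y, R x y → R y x) {h : ℕ}
    (hH : ¬ HG2 R h) (f g : I → W) : Dl 𝒲 R f g ↔ Dl 𝒲 R g f := by
  unfold Dl
  rw [swap 𝒲 𝒲 (fun i j => R (f i) (g j)) (HG2_comap hH f g)]
  constructor
  · exact fun h => h.mono fun i hi => hi.mono fun j hj => hR _ _ hj
  · exact fun h => h.mono fun i hi => hi.mono fun j hj => hR _ _ hj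

theorem Ex_symm (𝒲 : Ultrafilter I) {R : W → W → Prop} (hR : ∀ x y, R x y → R y x) {h : ℕ}
    (hH : ¬ HG2 R h) {f g : I → W} (hfg : Ex 𝒲 R f g) : Ex 𝒲 R g f := by
  unfold Ex at *
  rwa [Rs_symm 𝒲 hR g f, Dl_symm 𝒲 hR hH g f]

theorem Ex_congr (𝒲 : Ultrafilter I) {R : W → W → Prop} {f f' g g' : I → W}
    (hf : f =ᶠ[(𝒲 : Filter I)] f') (hg : g =ᶠ[(𝒲 : Filter I)] g') :
    Ex 𝒲 R f g ↔ Ex 𝒲 R f' g' := by
  have h1 : Rs 𝒲 R f g ↔ Rs 𝒲 R f' g' := by
    unfold Rs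
    exact eventually_congr (by
      filter_upwards [hf, hg] with i h1 h2
      rw [h1, h2])
  have h2 : Dl 𝒲 R f g ↔ Dl 𝒲 R f' g' := by
    unfold Dl
    refine eventually_congr ?_
    filter_upwards [hf] with i h1
    refine eventually_congr ?_
    filter_upwards [hg] with j h2
    rw [h1, h2]
  unfold Ex
  rw [h1, h2]

/-- Exceptional pairs are preserved under measure preserving maps of the index sets. -/
theorem marg_ex (𝒲 : Ultrafilter I) (𝒥 : Ultrafilter J) (φ : J → I)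
    (hφ : ∀ P : I → Prop, (∀ᶠ j in (𝒥 : Filter J), P (φ j)) ↔ ∀ᶠ i in (𝒲 : Filter I), P i)
    {R : W → W → Prop} (f g : I → W) : Ex 𝒥 R (f ∘ φ) (g ∘ φ) ↔ Ex 𝒲 R f g := by
  have h1 : Rs 𝒥 R (f ∘ φ) (g ∘ φ) ↔ Rs 𝒲 R f g := hφ (fun i => R (f i) (g i))
  have h2 : Dl 𝒥 R (f ∘ φ) (g ∘ φ) ↔ Dl 𝒲 R f g := by
    unfold Dl
    rw [← hφ (fun i => ∀ᶠ j in (𝒲 : Filter I), R (f i) (g j))]
    refine eventually_congr (Eventually.of_forall fun i => ?_)
    exact hφ (fun k => R (f (φ i)) (g k))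
  unfold Ex
  rw [h1, h2]

theorem marg_conn (𝒲 : Ultrafilter I) (𝒥 : Ultrafilter J) (φ : J → I)
    (hφ : ∀ P : I → Prop, (∀ᶠ j in (𝒥 : Filter J), P (φ j)) ↔ ∀ᶠ i in (𝒲 : Filter I), P i)
    {R : W → W → Prop} {f g : I → W} (h : Conn 𝒲 R f g) : Conn 𝒥 R (f ∘ φ) (g ∘ φ) := by
  unfold Conn at *
  induction h with
  | refl => exact Relation.ReflTransGen.refl
  | @tail b c _ hbc ih =>
    refine ih.tail ?_
    rcases hbc with h1 | h1
    · exact Or.inl ((marg_ex 𝒲 𝒥 φ hφ b c).mpr h1)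
    · exact Or.inr ((hφ (fun i => b i = c i)).mpr h1)

theorem Conn_symm (𝒲 : Ultrafilter I) {R : W → W → Prop} (hR : ∀ x y, R x y → R y x) {h : ℕ}
    (hH : ¬ HG2 R h) {f g : I → W} (hfg : Conn 𝒲 R f g) : Conn 𝒲 R g f := by
  unfold Conn at *
  induction hfg with
  | refl => exact Relation.ReflTransGen.refl
  | @tail b c _ hbc ih =>
    refine Relation.ReflTransGen.head ?_ ih
    rcases hbc with h1 | h1
    · exact Or.inl (Ex_symm 𝒲 hR hH h1)
    · exact Or.inr h1.symm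

theorem conn_cases (𝒲 : Ultrafilter I) {R : W → W → Prop} {f g : I → W}
    (h : Conn 𝒲 R f g) :
    f =ᶠ[(𝒲 : Filter I)] g ∨ Relation.TransGen (Ex 𝒲 R) f g := by
  unfold Conn at h
  induction h with
  | refl => exact Or.inl (EventuallyEq.refl _ _)
  | @tail b c _ hbc ih =>
    rcases hbc with h1 | h1
    · rcases ih with h2 | h2
      · exact Or.inr (Relation.TransGen.single ((Ex_congr 𝒲 h2 (EventuallyEq.refl _ _)).mpr h1))
      · exact Or.inr (h2.tail h1)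
    · rcases ih with h2 | h2
      · exact Or.inl (h2.trans h1)
      · right
        cases h2 with
        | single h3 =>
          exact Relation.TransGen.single ((Ex_congr 𝒲 (EventuallyEq.refl _ _) h1).mp h3)
        | tail h3 h4 =>
          exact h3.tail ((Ex_congr 𝒲 (EventuallyEq.refl _ _) h1).mp h4)

theorem conn_trans (𝒲 : Ultrafilter I) {R : W → W → Prop} {f g k : I → W}
    (h1 : Conn 𝒲 R f g) (h2 : Conn 𝒲 R g k) : Conn 𝒲 R f k :=
  Relation.ReflTransGen.trans h1 h2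

theorem conn_of_ex (𝒲 : Ultrafilter I) {R : W → W → Prop} {f g : I → W}
    (h1 : Ex 𝒲 R f g) : Conn 𝒲 R f g :=
  Relation.ReflTransGen.single (Or.inl h1)

theorem conn_of_eq (𝒲 : Ultrafilter I) {R : W → W → Prop} {f g : I → W}
    (h1 : f =ᶠ[(𝒲 : Filter I)] g) : Conn 𝒲 R f g :=
  Relation.ReflTransGen.single (Or.inr h1)

end KBT
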