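import Pool.Agent.KBT.Closed

set_option autoImplicit false

namespace KBT

open Filter

/-- Paths of a flip over a finite set can be shortened. -/
theorem plgS {W : Type*} {R : W → W → Prop} (hR : ∀ x y, R x y → R y x) {m : ℕ}
    (hX : ¬ PP R m) (S : Finset W) (Φ : Set W → Set W → Prop) (hΦ : ∀ a b, Φ a b → Φ b a) :
    ∃ bd : ℕ, ∀ x y : W, Relation.ReflTransGen (EF R S Φ) x y →
      ∃ n ≤ bd, ∃ p : ℕ → W, p 0 = x ∧ p n = y ∧ ∀ i < n, EF R S Φ (p i) (p (i+1)) := by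
  classical
  let t : W → Set {s // s ∈ S} := fun w => {s | R w s.1}
  let Φ' : Set {s // s ∈ S} → Set {s // s ∈ S} → Prop :=
    fun A B => Φ (Subtype.val '' A) (Subtype.val '' B)
  have ht : ∀ w, Subtype.val '' (t w) = tp R S w := by
    intro w
    ext s
    constructor
    · rintro ⟨⟨s', hs'⟩, h1, rfl⟩
      exact ⟨hs', h1⟩
    · rintro ⟨h1, h2⟩
      exact ⟨⟨s, h1⟩, h2, rfl⟩
  refine ⟨(Fintype.card (Set {s // s ∈ S}) ^ (m+1) + 1) * (m+2), ?_⟩
  intro x y hxy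
  have h1 : Relation.ReflTransGen (fun a b => ¬ (R (id a) (id b) ↔ Φ' (t a) (t b))) x y := by
    have : (fun a b => ¬ (R (id a) (id b) ↔ Φ' (t a) (t b))) = EF R S Φ := by
      funext a b
      simp only [Φ', ht, id]
      rfl
    rw [this]
    exact hxy
  obtain ⟨n, hn, p, h0, hpn, hp⟩ := plg R hR id t Φ' (fun a b => hΦ _ _) m hX h1
  refine ⟨n, hn, p, h0, hpn, ?_⟩
  intro i hi
  have := hp i hi
  simp only [Φ', ht, id] at this
  exact this

/-- There is no sequence of points which are connected for all flips over finite sets. -/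
theorem flat {W : Type*} {R : W → W → Prop} (hR : ∀ x y, R x y → R y x) {h m : ℕ}
    (hH : ¬ HG2 R h) (hX : ¬ PP R m) (v : ℕ → W) (hv : Function.Injective v)
    (hc : ∀ (S : Finset W) (Φ : Set W → Set W → Prop), (∀ a b, Φ a b → Φ b a) →
      ∃ i0 : ℕ, ∀ j l, i0 < j → i0 < l → Relation.ReflTransGen (EF R S Φ) (v j) (v l)) :
    False := by
  classical
  set 𝒰 : Ultrafilter ℕ := hyperfilter ℕ with h𝒰
  set 𝒲 : Ultrafilter (ℕ × ℕ) := prodU 𝒰 𝒰 with h𝒲
  obtain ⟨S, Φ, hΦ, hcl⟩ := closed 𝒲 hR hH hX (v ∘ Prod.fst)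
  obtain ⟨i0, hi0⟩ := hc S Φ hΦ
  obtain ⟨bd, hbd⟩ := plgS hR hX S Φ hΦ
  have hpath : ∀ q : ℕ × ℕ, ∃ (n : ℕ) (p : ℕ → W), i0 < q.1 → i0 < q.2 →
      n ≤ bd ∧ p 0 = v q.1 ∧ p n = v q.2 ∧ ∀ i < n, EF R S Φ (p i) (p (i+1)) := by
    intro q
    by_cases hq : i0 < q.1 ∧ i0 < q.2
    · obtain ⟨n, hn, p, h1, h2, h3⟩ := hbd _ _ (hi0 q.1 q.2 hq.1 hq.2)
      exact ⟨n, p, fun _ _ => ⟨hn, h1, h2, h3⟩⟩
    · exact ⟨0, fun _ => v 0, fun h1 h2 => absurd ⟨h1, h2⟩ hq⟩
  choose n p hp using hpath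
  let P : ℕ → (ℕ × ℕ → W) := fun t q => p q (min t (n q))
  have hbig : ∀ᶠ q in (𝒲 : Filter (ℕ × ℕ)), i0 < q.1 ∧ i0 < q.2 := by
    have h1 : ∀ᶠ a in (𝒰 : Filter ℕ), i0 < a := by
      have h2 : ∀ᶠ a in (cofinite : Filter ℕ), i0 < a := by
        rw [Nat.cofinite_eq_atTop]
        exact eventually_gt_atTop i0
      exact Filter.hyperfilter_le_cofinite h2
    rw [h𝒲, ev_prodU]
    filter_upwards [h1] with a ha
    filter_upwards [h1] with b hb
    exact ⟨ha, hb⟩
  have hconn : ∀ t, Conn 𝒲 R (v ∘ Prod.fst) (P t) := by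
    intro t
    induction t with
    | zero =>
      apply conn_of_eq
      filter_upwards [hbig] with q hq
      have := (hp q hq.1 hq.2).2.1
      simp only [P, Nat.zero_min, this, Function.comp]
    | succ t ih =>
      have hstep : (∀ᶠ q in (𝒲 : Filter (ℕ × ℕ)), P t q = P (t+1) q) ∨
          (∀ᶠ q in (𝒲 : Filter (ℕ × ℕ)), EF R S Φ (P t q) (P (t+1) q)) := by
        rw [← Ultrafilter.eventually_or]
        filter_upwards [hbig] with q hq
        obtain ⟨h1, h2, h3, h4⟩ := hp q hq.1 hq.2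
        by_cases htn : t < n q
        · right
          have e1 : min t (n q) = t := by omega
          have e2 : min (t+1) (n q) = t + 1 := by omega
          simp only [P, e1, e2]
          exact h4 t htn
        · left
          have e1 : min t (n q) = n q := by omega
          have e2 : min (t+1) (n q) = n q := by omega
          simp only [P, e1, e2]
      rcases hstep with h1 | h1
      · exact conn_trans 𝒲 ih (conn_of_eq 𝒲 h1)
      · by_contra hcon
        have h2 := hcl (P (t+1)) (P t) ih hcon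
        obtain ⟨q, ⟨⟨h3, h4⟩, h5⟩, h6⟩ := (((h1.and (tp_lim 𝒲 hR S (P t))).and
          (tp_lim 𝒲 hR S (P (t+1)))).and (ev_dec 𝒲 (fun q => R (P (t+1) q) (P t q)))).exists
        unfold EF at h3
        rw [h4, h5] at h3
        apply h3
        have e1 : R (P t q) (P (t+1) q) ↔ R (P (t+1) q) (P t q) := ⟨hR _ _, hR _ _⟩
        rw [e1, h6]
        exact h2.trans ⟨hΦ _ _, hΦ _ _⟩
  have hend : Conn 𝒲 R (v ∘ Prod.fst) (v ∘ Prod.snd) := by
    refine conn_trans 𝒲 (hconn bd) (conn_of_eq 𝒲 ?_)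
    filter_upwards [hbig] with q hq
    obtain ⟨h1, h2, h3, h4⟩ := hp q hq.1 hq.2
    have e1 : min bd (n q) = n q := by omega
    simp only [P, e1, h3, Function.comp]
  rcases conn_cases 𝒲 hend with h1 | h1
  · have h2 : ∀ᶠ a in (𝒰 : Filter ℕ), ∀ᶠ b in (𝒰 : Filter ℕ), v a = v b := h1
    obtain ⟨a, ha⟩ := h2.exists
    have h9 : ∀ᶠ b in (𝒰 : Filter ℕ), b ≠ a :=
      Filter.hyperfilter_le_cofinite (Set.finite_singleton a).compl_mem_cofinite
    obtain ⟨b, h10, h11⟩ := (ha.and h9).exists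
    exact h11 (hv h10).symm
  · exact wlu 𝒰 hR hH hX v h1

end KBT
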