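import Pool.Agent.KBT.Flips
import Pool.Agent.KBT.Flat

set_option autoImplicit false

namespace KBT

open Filter

/-- one stage of the construction -/
structure StepOK {V : Type} (R : V → V → Prop) (C : ℕ → Set V) (S : Finset (ℕ → V))
    (C' : ℕ → Set V) (S' : Finset (ℕ → V)) (v' : ℕ → V) : Prop where
  sub : ∀ n, C' n ⊆ C n
  subS : S ⊆ S'
  memv : ∀ᶠ n in (hyperfilter ℕ : Filter ℕ), v' n ∈ C n
  newv : ∀ s ∈ S, ∀ᶠ n in (hyperfilter ℕ : Filter ℕ), v' n ≠ s n
  vS : v' ∈ S'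
  clos : ∀ x ∈ S, ∀ y ∈ S, ∀ T ⊆ S, ∀ Φ : Set (ℕ → V) → Set (ℕ → V) → Prop,
      Relation.ReflTransGen (EF (Rs (hyperfilter ℕ) R) T Φ) x y →
        Relation.ReflTransGen (fun a b => EF (Rs (hyperfilter ℕ) R) T Φ a b ∧ a ∈ S' ∧ b ∈ S') x y
  good : ∀ T ⊆ S', ∀ Φ : Set (ℕ → V) → Set (ℕ → V) → Prop, (∀ a b, Φ a b → Φ b a) →
      ∀ x y : ℕ → V, (∀ᶠ n in (hyperfilter ℕ : Filter ℕ), x n ∈ C' n) →
        (∀ᶠ n in (hyperfilter ℕ : Filter ℕ), y n ∈ C' n) →
        Relation.ReflTransGen (EF (Rs (hyperfilter ℕ) R) T Φ) x y ∨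
          ∀ᶠ n in (hyperfilter ℕ : Filter ℕ), x n = y n

theorem stepOK_exists {V : Type} {R : V → V → Prop} (hR : ∀ x y, R x y → R y x) {m : ℕ}
    (hX : ¬ PP R m) (C : ℕ → Set V) (hC : NT R C) (S : Finset (ℕ → V)) :
    ∃ (C' : ℕ → Set V) (S' : Finset (ℕ → V)) (v' : ℕ → V), NT R C' ∧ StepOK R C S C' S' v' := by
  classical
  obtain ⟨v, hv1, hv2⟩ := pt hC S
  obtain ⟨S1, hS1, hS2⟩ := clo (Rs (hyperfilter ℕ) R) (insert v S)
  obtain ⟨C', h1, h2, h3⟩ := allflips hR hX C hC S1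
  refine ⟨C', S1, v, h2, ⟨h1, (Finset.subset_insert v S).trans hS1, hv1, hv2,
    hS1 (Finset.mem_insert_self v S), ?_, ?_⟩⟩
  · intro x hx y hy T hT Φ hxy
    have hT' : T ⊆ insert v S := hT.trans (Finset.subset_insert v S)
    have e := EF_larger (R := Rs (hyperfilter ℕ) R) hT' Φ
    rw [← e] at hxy ⊢
    exact hS2 x (Finset.mem_insert_of_mem hx) y (Finset.mem_insert_of_mem hy) _ hxy
  · intro T hT Φ hΦ x y hx hy
    have e := EF_larger (R := Rs (hyperfilter ℕ) R) hT Φ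
    have := h3 (fun A B => Φ (A ∩ T) (B ∩ T)) (fun a b hab => hΦ _ _ hab) x y hx hy
    rw [e] at this
    exact this

theorem PP_of_Rs {V : Type} {R : V → V → Prop} {m : ℕ} (h : PP (Rs (hyperfilter ℕ) R) m) :
    PP R m := by
  classical
  obtain ⟨v, w, h1, h2⟩ := h
  have key : ∀ᶠ n in (hyperfilter ℕ : Filter ℕ), ∀ a ∈ Finset.range (m+1), ∀ b ∈ Finset.range (m+1),
      ((R (v b n) (v a n) ↔ Rs (hyperfilter ℕ) R (v b) (v a)) ∧
       (R (v b n) (w a n) ↔ Rs (hyperfilter ℕ) R (v b) (w a))) ∧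
      ((R (w b n) (v a n) ↔ Rs (hyperfilter ℕ) R (w b) (v a)) ∧
       (R (w b n) (w a n) ↔ Rs (hyperfilter ℕ) R (w b) (w a))) := by
    rw [eventually_all_finset]
    intro a _
    rw [eventually_all_finset]
    intro b _
    exact ((ev_dec (hyperfilter ℕ) (fun n => R (v b n) (v a n))).and
      (ev_dec (hyperfilter ℕ) (fun n => R (v b n) (w a n)))).and
      ((ev_dec (hyperfilter ℕ) (fun n => R (w b n) (v a n))).and
      (ev_dec (hyperfilter ℕ) (fun n => R (w b n) (w a n))))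
  obtain ⟨n, hn⟩ := key.exists
  refine ⟨fun a => v a n, fun a => w a n, ?_, ?_⟩
  · intro a ha
    obtain ⟨⟨e1, e2⟩, e3, e4⟩ := hn a (Finset.mem_range.mpr (by omega)) (a+1)
      (Finset.mem_range.mpr (by omega))
    dsimp only
    rw [e1, e2, e3, e4]
    exact h1 a ha
  · intro a b hab hb
    obtain ⟨⟨e1, e2⟩, e3, e4⟩ := hn a (Finset.mem_range.mpr (by omega)) b
      (Finset.mem_range.mpr (by omega))
    dsimp only
    rw [e1, e2, e3, e4]
    exact h2 a b hab hb

/-- Theorem S: a symmetric relation without long half graphs and without long pairs of parallel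
runs is tame. -/
theorem mainS {V : Type} {R : V → V → Prop} (hR : ∀ x y, R x y → R y x) {h m : ℕ}
    (hH : ¬ HG2 R h) (hX : ¬ PP R m) (c : ℕ) : ∃ N, Tame R Set.univ c N := by
  classical
  by_contra hcon
  push Not at hcon
  have hNT : NT R (fun _ => (Set.univ : Set V)) := ⟨c, fun N => Eventually.of_forall fun _ => hcon N⟩
  let St : Type := {p : (ℕ → Set V) × Finset (ℕ → V) × (ℕ → V) // NT R p.1}
  have hst : ∀ p : St, ∃ p' : St, StepOK R p.1.1 p.1.2.1 p'.1.1 p'.1.2.1 p'.1.2.2 := by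
    intro p
    obtain ⟨C', S', v', h1, h2⟩ := stepOK_exists hR hX p.1.1 p.2 p.1.2.1
    exact ⟨⟨(C', S', v'), h1⟩, h2⟩
  choose nxt hnxt using hst
  obtain ⟨v0, _, _⟩ := pt hNT ∅
  let p0 : St := ⟨(fun _ => Set.univ, ∅, v0), hNT⟩
  let sq : ℕ → St := fun n => Nat.rec p0 (fun _ p => nxt p) n
  have hsq : ∀ n, StepOK R (sq n).1.1 (sq n).1.2.1 (sq (n+1)).1.1 (sq (n+1)).1.2.1
      (sq (n+1)).1.2.2 := fun n => hnxt (sq n)
  have hCmono : ∀ i j, i ≤ j → ∀ n, (sq j).1.1 n ⊆ (sq i).1.1 n := by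
    intro i j hij
    induction hij with
    | refl => exact fun n => Set.Subset.refl _
    | @step j _ ih => exact fun n => ((hsq j).sub n).trans (ih n)
  have hSmono : ∀ i j, i ≤ j → (sq i).1.2.1 ⊆ (sq j).1.2.1 := by
    intro i j hij
    induction hij with
    | refl => exact Finset.Subset.refl _
    | @step j _ ih => exact ih.trans (hsq j).subS
  let M : Set (ℕ → V) := {f | ∃ i, f ∈ (sq i).1.2.1}
  let vv : ℕ → (ℕ → V) := fun j => (sq (j+1)).1.2.2
  have hvM : ∀ j, vv j ∈ (sq (j+1)).1.2.1 := fun j => (hsq j).vS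
  have hvC : ∀ j, ∀ᶠ n in (hyperfilter ℕ : Filter ℕ), vv j n ∈ (sq j).1.1 n :=
    fun j => (hsq j).memv
  have hvne : ∀ j l, j < l → ∀ᶠ n in (hyperfilter ℕ : Filter ℕ), vv l n ≠ vv j n := by
    intro j l hjl
    exact (hsq l).newv (vv j) (hSmono (j+1) l (by omega) (hvM j))
  have hvne' : ∀ j l, j ≠ l → ¬ ∀ᶠ n in (hyperfilter ℕ : Filter ℕ), vv j n = vv l n := by
    intro j l hjl hev
    rcases lt_or_gt_of_ne hjl with h1 | h1
    · obtain ⟨n, h2, h3⟩ := (hev.and (hvne j l h1)).exists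
      exact h3 h2.symm
    · obtain ⟨n, h2, h3⟩ := (hev.and (hvne l j h1)).exists
      exact h3 h2
  let RW : M → M → Prop := fun x y => Rs (hyperfilter ℕ) R x.1 y.1
  let v : ℕ → M := fun j => ⟨vv j, j+1, hvM j⟩
  refine flat (W := M) (R := RW) (h := h) (m := m) ?_ ?_ ?_ v ?_ ?_
  · intro x y hxy
    exact hxy.mono fun n hn => hR _ _ hn
  · rintro ⟨a, b, hab⟩
    exact hg_lim (hyperfilter ℕ) R (fun f : ℕ → V => f) (fun f : ℕ → V => f) hH
      ⟨fun i => (a i).1, fun i => (b i).1, hab⟩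
  · rintro ⟨a, b, h1, h2⟩
    exact hX (PP_of_Rs ⟨fun i => (a i).1, fun i => (b i).1, h1, h2⟩)
  · intro j l hjl
    by_contra hne
    have h1 : vv j = vv l := congrArg Subtype.val hjl
    exact hvne' j l hne (Eventually.of_forall fun n => by rw [h1])
  · intro SW ΦW hΦW
    let T : Finset (ℕ → V) := SW.image Subtype.val
    let Φ : Set (ℕ → V) → Set (ℕ → V) → Prop :=
      fun A B => ΦW (Subtype.val ⁻¹' A) (Subtype.val ⁻¹' B)
    have hTsub : ∃ i, T ⊆ (sq i).1.2.1 := by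
      have : ∀ F : Finset M, ∃ i, F.image Subtype.val ⊆ (sq i).1.2.1 := by
        intro F
        induction F using Finset.induction_on with
        | empty => exact ⟨0, by simp⟩
        | insert a F _ ih =>
          obtain ⟨i, hi⟩ := ih
          obtain ⟨j, hj⟩ := a.2
          refine ⟨max i j, ?_⟩
          rw [Finset.image_insert]
          intro f hf
          rcases Finset.mem_insert.mp hf with h1 | h1
          · rw [h1]
            exact hSmono j _ (le_max_right i j) hj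
          · exact hSmono i _ (le_max_left i j) (hi h1)
      exact this SW
    obtain ⟨i, hi⟩ := hTsub
    have htp : ∀ x : M, Subtype.val ⁻¹' (tp (Rs (hyperfilter ℕ) R) T x.1) = tp RW SW x := by
      intro x
      ext s
      constructor
      · rintro ⟨h1, h2⟩
        obtain ⟨s', h3, h4⟩ := Finset.mem_image.mp h1
        have : s' = s := Subtype.ext h4
        subst this
        exact ⟨h3, h2⟩
      · rintro ⟨h1, h2⟩
        exact ⟨Finset.mem_image_of_mem _ h1, h2⟩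
    have hEF : ∀ x y : M, EF (Rs (hyperfilter ℕ) R) T Φ x.1 y.1 ↔ EF RW SW ΦW x y := by
      intro x y
      unfold EF
      simp only [Φ, htp]
      rfl
    refine ⟨i, ?_⟩
    intro j l hj hl
    by_cases hjl : j = l
    · subst hjl
      exact Relation.ReflTransGen.refl
    -- connected in the ultrapower
    have h1 : Relation.ReflTransGen (EF (Rs (hyperfilter ℕ) R) T Φ) (vv j) (vv l) := by
      have hi0 : 1 ≤ i ∨ i = 0 := by omega
      have h2 := (hsq i).good T (hi.trans (hsq i).subS) Φ (fun a b hab => hΦW _ _ hab) (vv j) (vv l)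
        ((hvC j).mono fun n hn => hCmono (i+1) j (by omega) n hn)
        ((hvC l).mono fun n hn => hCmono (i+1) l (by omega) n hn)
      rcases h2 with h2 | h2
      · exact h2
      · exact absurd h2 (hvne' j l hjl)
    -- inside M
    set n := max (max (j+1) (l+1)) i with hn
    have h2 := (hsq n).clos (vv j) (hSmono (j+1) n (by omega) (hvM j)) (vv l)
      (hSmono (l+1) n (by omega) (hvM l)) T (hi.trans (hSmono i n (by omega))) Φ h1
    have key : ∀ y : ℕ → V, Relation.ReflTransGen (fun a b => EF (Rs (hyperfilter ℕ) R) T Φ a b ∧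
        a ∈ (sq (n+1)).1.2.1 ∧ b ∈ (sq (n+1)).1.2.1) (vv j) y →
        ∃ hy : y ∈ M, Relation.ReflTransGen (EF RW SW ΦW) (v j) ⟨y, hy⟩ := by
      intro y hy
      induction hy with
      | refl => exact ⟨(v j).2, Relation.ReflTransGen.refl⟩
      | @tail b c _ hbc ih =>
        obtain ⟨hb, h3⟩ := ih
        have hc : c ∈ M := ⟨n+1, hbc.2.2⟩
        exact ⟨hc, h3.tail ((hEF ⟨b, hb⟩ ⟨c, hc⟩).mp hbc.1)⟩
    obtain ⟨_, h3⟩ := key _ h2
    exact h3

end KBT
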