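import Pool.Agent.KBT.Dual

set_option autoImplicit false

namespace KBT

variable {A : Type} [BooleanAlgebra A]

/-- If the frame of points is tame then finitely generated subalgebras are finite. -/
theorem tameAlg {f : A → A} (htop : f ⊤ = ⊤) (hinf : ∀ a b : A, f (a ⊓ b) = f a ⊓ f b) (n : ℕ)
    (g : Fin n → A) (N : ℕ) (hT : Tame (Rel f) Set.univ (Fintype.card (Set (Fin n))) N) :
    {a | Gen f g a}.Finite := by
  classical
  let e : Set (Fin n) ≃ Fin (Fintype.card (Set (Fin n))) := Fintype.equivFin _
  obtain ⟨π, h1, h2⟩ := hT (fun F => e {i | g i ∈ F.s})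
  have key : ∀ a, Gen f g a → ∀ F G : Pt A, π F = π G → (a ∈ F.s ↔ a ∈ G.s) := by
    intro a ha
    induction ha with
    | gen i =>
      intro F G hFG
      have h3 := e.injective (h2 F (Set.mem_univ _) G (Set.mem_univ _) hFG)
      have h4 : i ∈ {i | g i ∈ F.s} ↔ i ∈ {i | g i ∈ G.s} := by rw [h3]
      exact h4
    | bot =>
      intro F G _
      exact ⟨fun h => absurd h F.bot_notMem, fun h => absurd h G.bot_notMem⟩
    | compl a _ ih =>
      intro F G hFG
      rw [F.compl, G.compl, ih F G hFG]
    | inf a b _ _ iha ihb =>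
      intro F G hFG
      rw [F.inf, G.inf, iha F G hFG, ihb F G hFG]
    | box a _ ih =>
      have half : ∀ F G : Pt A, π F = π G → f a ∈ F.s → f a ∈ G.s := by
        intro F G hFG hF
        rw [box_mem htop hinf] at hF ⊢
        intro G' hG'
        obtain ⟨F', _, h3, h4⟩ := h1 G (Set.mem_univ _) F (Set.mem_univ _) hFG.symm G'
          (Set.mem_univ _) hG'
        exact (ih F' G' h4).mp (hF F' h3)
      intro F G hFG
      exact ⟨half F G hFG, half G F hFG.symm⟩
  let code : A → Set (Fin N) := fun a => {j | ∃ F : Pt A, π F = j ∧ a ∈ F.s}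
  refine Set.Finite.of_finite_image (f := code) (Set.toFinite _) ?_
  have half : ∀ a b, Gen f g a → Gen f g b → code a = code b → a ≤ b := by
    intro a b _ hb hab
    apply le_of_pts
    intro F hF
    have h3 : π F ∈ code a := ⟨F, rfl, hF⟩
    rw [hab] at h3
    obtain ⟨G, hG, hbG⟩ := h3
    exact (key b hb G F hG).mp hbG
  intro a ha b hb hab
  exact le_antisymm (half a b ha hb hab) (half b a hb ha hab.symm)

end KBT
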