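import Pool.Agent.KBT.Defs

set_option autoImplicit false

namespace KBT

/-- A half graph in a symmetric relation contains one with disjoint sides. -/
theorem thin {X : Type*} {R : X → X → Prop} (hR : ∀ x y, R x y → R y x) {n : ℕ}
    (h : HG2 R (2 * n)) :
    ∃ a b : ℕ → X, ∀ i < n, ∀ j < n, (R (a i) (b j) ↔ i < j) ∧ a i ≠ b j := by
  classical
  obtain ⟨a, b, hab⟩ := h
  by_cases h1 : ∃ i < n, ∃ j < n, a i = b j
  · refine ⟨fun i => a (n + i), fun j => b (n + j), ?_⟩
    intro i hi j hj
    have h2 := hab (n+i) (by omega) (n+j) (by omega)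
    refine ⟨by dsimp only; rw [h2]; omega, ?_⟩
    intro h3
    obtain ⟨i', hi', j', hj', h4⟩ := h1
    dsimp only at h3
    -- R (a i') (a (n+i))
    have h5 : R (a i') (b (n+j)) := (hab i' (by omega) (n+j) (by omega)).mpr (by omega)
    rw [← h3] at h5
    have h6 := hR _ _ h5
    rw [h4] at h6
    have h7 := (hab (n+i) (by omega) j' (by omega)).mp h6
    omega
  · push Not at h1
    refine ⟨a, b, ?_⟩
    intro i hi j hj
    exact ⟨hab i (by omega) j (by omega), h1 i hi j hj⟩

end KBT
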