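import Pool.Agent.KBT.One

set_option autoImplicit false

namespace KBT

open Filter

/-- Only the restriction of Φ to subsets of T matters. -/
theorem EF_congr {X : Type*} {R : X → X → Prop} (T : Finset X) {Φ Φ' : Set X → Set X → Prop}
    (h : ∀ A B : Set X, A ⊆ T → B ⊆ T → (Φ A B ↔ Φ' A B)) : EF R T Φ = EF R T Φ' := by
  funext x y
  have h1 : tp R T x ⊆ T := fun s hs => hs.1
  have h2 : tp R T y ⊆ T := fun s hs => hs.1
  unfold EF
  rw [h _ _ h1 h2]

/-- A flip over T is a flip over every larger finite set. -/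
theorem EF_larger {X : Type*} {R : X → X → Prop} {T S : Finset X} (hTS : T ⊆ S)
    (Φ : Set X → Set X → Prop) :
    EF R S (fun A B => Φ (A ∩ T) (B ∩ T)) = EF R T Φ := by
  have h1 : ∀ x, tp R S x ∩ T = tp R T x := by
    intro x
    ext s
    constructor
    · rintro ⟨⟨_, h2⟩, h3⟩
      exact ⟨h3, h2⟩
    · rintro ⟨h2, h3⟩
      exact ⟨⟨hTS h2, h3⟩, h2⟩
  funext x y
  unfold EF
  dsimp only
  rw [h1, h1]

/-- the finite set of codes of relations on subsets of T -/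
theorem codes_finite {X : Type*} (T : Finset X) :
    {G : Set (Set X × Set X) | G ⊆ {q | q.1 ⊆ (T : Set X) ∧ q.2 ⊆ (T : Set X)}}.Finite := by
  have h1 : {A : Set X | A ⊆ (T : Set X)}.Finite := T.finite_toSet.finite_subsets
  have h2 : {q : Set X × Set X | q.1 ⊆ (T : Set X) ∧ q.2 ⊆ (T : Set X)}.Finite := h1.prod h1
  exact h2.finite_subsets

/-- All flips over T simultaneously. -/
theorem allflips {V : Type} {R : V → V → Prop} (hR : ∀ x y, R x y → R y x) {m : ℕ}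
    (hX : ¬ PP R m) (C : ℕ → Set V) (hC : NT R C) (T : Finset (ℕ → V)) :
    ∃ C' : ℕ → Set V, (∀ n, C' n ⊆ C n) ∧ NT R C' ∧
      ∀ Φ : Set (ℕ → V) → Set (ℕ → V) → Prop, (∀ a b, Φ a b → Φ b a) →
      ∀ x y : ℕ → V, (∀ᶠ n in (hyperfilter ℕ : Filter ℕ), x n ∈ C' n) →
        (∀ᶠ n in (hyperfilter ℕ : Filter ℕ), y n ∈ C' n) →
        Relation.ReflTransGen (EF (Rs (hyperfilter ℕ) R) T Φ) x y ∨
          ∀ᶠ n in (hyperfilter ℕ : Filter ℕ), x n = y n := by
  classical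
  let ΦG : Set (Set (ℕ → V) × Set (ℕ → V)) → Set (ℕ → V) → Set (ℕ → V) → Prop :=
    fun G A B => (A, B) ∈ G ∧ (B, A) ∈ G
  have key : ∀ s : Finset (Set (Set (ℕ → V) × Set (ℕ → V))), ∀ C : ℕ → Set V, NT R C →
      ∃ C' : ℕ → Set V, (∀ n, C' n ⊆ C n) ∧ NT R C' ∧ ∀ G ∈ s,
      ∀ x y : ℕ → V, (∀ᶠ n in (hyperfilter ℕ : Filter ℕ), x n ∈ C' n) →
        (∀ᶠ n in (hyperfilter ℕ : Filter ℕ), y n ∈ C' n) →
        Relation.ReflTransGen (EF (Rs (hyperfilter ℕ) R) T (ΦG G)) x y ∨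
          ∀ᶠ n in (hyperfilter ℕ : Filter ℕ), x n = y n := by
    intro s
    induction s using Finset.induction_on with
    | empty =>
      intro C hC
      exact ⟨C, fun n => Set.Subset.refl _, hC, fun G hG => absurd hG (Finset.notMem_empty G)⟩
    | insert G s _ ih =>
      intro C hC
      obtain ⟨C1, h1, h2, h3⟩ := one hR hX C hC T (ΦG G) (fun a b hab => ⟨hab.2, hab.1⟩)
      obtain ⟨C2, h4, h5, h6⟩ := ih C1 h2
      refine ⟨C2, fun n => (h4 n).trans (h1 n), h5, ?_⟩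
      intro G' hG' x y hx hy
      rcases Finset.mem_insert.mp hG' with h7 | h7
      · subst h7
        exact h3 x y (hx.mono fun n hn => h4 n hn) (hy.mono fun n hn => h4 n hn)
      · exact h6 G' h7 x y hx hy
  obtain ⟨C', h1, h2, h3⟩ := key (codes_finite T).toFinset C hC
  refine ⟨C', h1, h2, ?_⟩
  intro Φ hΦ x y hx hy
  let G : Set (Set (ℕ → V) × Set (ℕ → V)) :=
    {q | (q.1 ⊆ (T : Set (ℕ → V)) ∧ q.2 ⊆ (T : Set (ℕ → V))) ∧ Φ q.1 q.2}
  have hG : G ∈ (codes_finite T).toFinset := by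
    rw [Set.Finite.mem_toFinset]
    intro q hq
    exact hq.1
  have h4 := h3 G hG x y hx hy
  have h5 : EF (Rs (hyperfilter ℕ) R) T (ΦG G) = EF (Rs (hyperfilter ℕ) R) T Φ := by
    apply EF_congr
    intro A B hA hB
    constructor
    · rintro ⟨h6, _⟩
      exact h6.2
    · intro h6
      exact ⟨⟨⟨hA, hB⟩, h6⟩, ⟨⟨hB, hA⟩, hΦ _ _ h6⟩⟩
  rw [h5] at h4
  exact h4

theorem rtg_finite {X : Type*} {E : X → X → Prop} {x y : X} (h : Relation.ReflTransGen E x y) :
    ∃ F : Finset X, Relation.ReflTransGen (fun a b => E a b ∧ a ∈ F ∧ b ∈ F) x y := by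
  classical
  induction h with
  | refl => exact ⟨∅, Relation.ReflTransGen.refl⟩
  | @tail b c _ hbc ih =>
    obtain ⟨F, hF⟩ := ih
    refine ⟨F ∪ {b, c}, ?_⟩
    refine Relation.ReflTransGen.tail (b := b) ?_ ⟨hbc, by simp, by simp⟩
    exact Relation.ReflTransGen.mono (fun a d had => ⟨had.1, Finset.mem_union_left _ had.2.1,
      Finset.mem_union_left _ had.2.2⟩) _ _ hF

/-- Closure of a finite set under paths for its flips. -/
theorem clo {X : Type*} (R : X → X → Prop) (T : Finset X) :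
    ∃ T' : Finset X, T ⊆ T' ∧ ∀ x ∈ T, ∀ y ∈ T, ∀ Φ : Set X → Set X → Prop,
      Relation.ReflTransGen (EF R T Φ) x y →
        Relation.ReflTransGen (fun a b => EF R T Φ a b ∧ a ∈ T' ∧ b ∈ T') x y := by
  classical
  let ΦG : Set (Set X × Set X) → Set X → Set X → Prop := fun G A B => (A, B) ∈ G
  have hch : ∀ (G : Set (Set X × Set X)) (x y : X), ∃ F : Finset X,
      Relation.ReflTransGen (EF R T (ΦG G)) x y →
      Relation.ReflTransGen (fun a b => EF R T (ΦG G) a b ∧ a ∈ F ∧ b ∈ F) x y := by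
    intro G x y
    by_cases h : Relation.ReflTransGen (EF R T (ΦG G)) x y
    · obtain ⟨F, hF⟩ := rtg_finite h
      exact ⟨F, fun _ => hF⟩
    · exact ⟨∅, fun h' => absurd h' h⟩
  choose F hF using hch
  refine ⟨T ∪ (codes_finite T).toFinset.biUnion (fun G => T.biUnion fun x => T.biUnion fun y =>
    F G x y), Finset.subset_union_left, ?_⟩
  intro x hx y hy Φ hxy
  let G : Set (Set X × Set X) := {q | (q.1 ⊆ (T : Set X) ∧ q.2 ⊆ (T : Set X)) ∧ Φ q.1 q.2}
  have hG : G ∈ (codes_finite T).toFinset := by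
    rw [Set.Finite.mem_toFinset]
    intro q hq
    exact hq.1
  have h5 : EF R T (ΦG G) = EF R T Φ := by
    apply EF_congr
    intro A B hA hB
    exact ⟨fun h6 => h6.2, fun h6 => ⟨⟨hA, hB⟩, h6⟩⟩
  rw [← h5] at hxy ⊢
  refine Relation.ReflTransGen.mono ?_ _ _ (hF G x y hxy)
  rintro a b ⟨h1, h2, h3⟩
  have hsub : ∀ c ∈ F G x y, c ∈ T ∪ (codes_finite T).toFinset.biUnion
      (fun G => T.biUnion fun x => T.biUnion fun y => F G x y) := by
    intro c hc
    refine Finset.mem_union_right _ ?_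
    rw [Finset.mem_biUnion]
    refine ⟨G, hG, ?_⟩
    rw [Finset.mem_biUnion]
    refine ⟨x, hx, ?_⟩
    rw [Finset.mem_biUnion]
    exact ⟨y, hy, hc⟩
  exact ⟨h1, hsub a h2, hsub b h3⟩

end KBT
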