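import Pool.Agent.KBT.ExtB
import Pool.Agent.KBT.Dec
import Pool.Agent.KBT.Chl

set_option autoImplicit false

namespace KBT

open Filter

variable {I W : Type*}

/-- Connected elements of the ultrapower have bounded distance. -/
theorem f1 (𝒲 : Ultrafilter I) {R : W → W → Prop} (hR : ∀ x y, R x y → R y x) {h m : ℕ}
    (hH : ¬ HG2 R h) (hX : ¬ PP R m) {f g : I → W} (hfg : Relation.ReflTransGen (Ex 𝒲 R) f g) :
    ∃ n ≤ m, ∃ p : ℕ → (I → W), p 0 = f ∧ p n = g ∧ ∀ i < n, Ex 𝒲 R (p i) (p (i+1)) := by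
  classical
  obtain ⟨n, p, h0, hn, hp, hc⟩ := chordless hfg
  by_cases hle : n ≤ m
  · exact ⟨n, hle, p, h0, hn, hp⟩
  exfalso
  push Not at hle
  apply hX
  have hcon : ∀ a, a < n → (Rs 𝒲 R (p (a+1)) (p a) ↔ ¬ Dl 𝒲 R (p (a+1)) (p a)) := by
    intro a ha
    have := Ex_symm 𝒲 hR hH (hp a ha)
    unfold Ex at this
    tauto
  have hfar : ∀ a b, a + 2 ≤ b → b ≤ n → (Rs 𝒲 R (p b) (p a) ↔ Dl 𝒲 R (p b) (p a)) := by
    intro a b hab hb
    by_contra hcn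
    exact hc a b hab hb (Ex_symm 𝒲 hR hH hcn)
  -- generic choice
  have hgen : ∀ᶠ i in (𝒲 : Filter I), ∀ᶠ j in (𝒲 : Filter I), ∀ a ∈ Finset.range (n+1),
      ∀ b ∈ Finset.range (n+1),
      ((R (p b j) (p a j) ↔ Rs 𝒲 R (p b) (p a)) ∧ (R (p b i) (p a i) ↔ Rs 𝒲 R (p b) (p a))) ∧
      ((R (p b j) (p a i) ↔ Dl 𝒲 R (p b) (p a)) ∧ (R (p b i) (p a j) ↔ Dl 𝒲 R (p b) (p a))) := by
    have h1 : ∀ a b, ∀ᶠ i in (𝒲 : Filter I), ∀ᶠ j in (𝒲 : Filter I),
        ((R (p b j) (p a j) ↔ Rs 𝒲 R (p b) (p a)) ∧ (R (p b i) (p a i) ↔ Rs 𝒲 R (p b) (p a))) ∧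
        ((R (p b j) (p a i) ↔ Dl 𝒲 R (p b) (p a)) ∧
          (R (p b i) (p a j) ↔ Dl 𝒲 R (p b) (p a))) := by
      intro a b
      have e1 := ev_dec 𝒲 (fun i => R (p b i) (p a i))
      have e2 := ev_dec2 𝒲 𝒲 (fun i j => R (p b i) (p a j))
      have e3 := ev_dec2 𝒲 𝒲 (fun i j => R (p a i) (p b j))
      filter_upwards [e1, e2, e3] with i h1 h2 h3
      filter_upwards [e1, h2, h3] with j h4 h5 h6
      refine ⟨⟨h4, h1⟩, ?_, h5⟩
      have h7 : R (p b j) (p a i) ↔ R (p a i) (p b j) := ⟨hR _ _, hR _ _⟩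
      rw [h7, Dl_symm 𝒲 hR hH (p b) (p a)]
      exact h6
    have h2 : ∀ᶠ i in (𝒲 : Filter I), ∀ a ∈ Finset.range (n+1), ∀ b ∈ Finset.range (n+1),
        ∀ᶠ j in (𝒲 : Filter I),
        ((R (p b j) (p a j) ↔ Rs 𝒲 R (p b) (p a)) ∧ (R (p b i) (p a i) ↔ Rs 𝒲 R (p b) (p a))) ∧
        ((R (p b j) (p a i) ↔ Dl 𝒲 R (p b) (p a)) ∧
          (R (p b i) (p a j) ↔ Dl 𝒲 R (p b) (p a))) := by
      rw [eventually_all_finset]
      intro a _
      rw [eventually_all_finset]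
      intro b _
      exact h1 a b
    filter_upwards [h2] with i hi
    rw [eventually_all_finset]
    intro a ha
    rw [eventually_all_finset]
    intro b hb
    exact hi a ha b hb
  obtain ⟨i, hi⟩ := hgen.exists
  obtain ⟨j, hj⟩ := hi.exists
  refine ⟨fun a => p a j, fun a => p a i, ?_, ?_⟩
  · intro a ha
    obtain ⟨⟨h1, h2⟩, h3, h4⟩ := hj a (Finset.mem_range.mpr (by omega)) (a+1)
      (Finset.mem_range.mpr (by omega))
    have h5 := hcon a (by omega)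
    refine ⟨?_, ?_, ?_⟩ <;> dsimp only <;> tauto
  · intro a b hab hb
    obtain ⟨⟨h1, h2⟩, h3, h4⟩ := hj a (Finset.mem_range.mpr (by omega)) b
      (Finset.mem_range.mpr (by omega))
    have h5 := hfar a b hab (by omega)
    refine ⟨?_, ?_⟩ <;> dsimp only <;> tauto

theorem bl_mono (𝒲 : Ultrafilter I) {R : W → W → Prop} {z y : I → W} {r s : ℕ} (hrs : r ≤ s)
    (hy : y ∈ Bl 𝒲 R z r) : y ∈ Bl 𝒲 R z s := by
  induction hrs with
  | refl => exact hy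
  | step _ ih => exact Or.inl ih

theorem conn_of_bl (𝒲 : Ultrafilter I) {R : W → W → Prop} {z y : I → W} {r : ℕ}
    (hy : y ∈ Bl 𝒲 R z r) : Conn 𝒲 R z y := by
  induction r generalizing y with
  | zero => exact conn_of_eq 𝒲 hy
  | succ r ih =>
    rcases hy with h1 | ⟨f, hf, hE⟩
    · exact ih h1
    · exact conn_trans 𝒲 (ih hf) (conn_of_ex 𝒲 hE)

/-- The whole component is a ball of radius m. -/
theorem bl_of_conn (𝒲 : Ultrafilter I) {R : W → W → Prop} (hR : ∀ x y, R x y → R y x) {h m : ℕ}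
    (hH : ¬ HG2 R h) (hX : ¬ PP R m) {z y : I → W} (hc : Conn 𝒲 R z y) :
    y ∈ Bl 𝒲 R z m := by
  rcases conn_cases 𝒲 hc with h1 | h1
  · exact bl_mono 𝒲 (Nat.zero_le m) h1
  · obtain ⟨n, hn, p, h0, hpn, hp⟩ := f1 𝒲 hR hH hX h1.to_reflTransGen
    have key : ∀ t ≤ n, p t ∈ Bl 𝒲 R z t := by
      intro t
      induction t with
      | zero => intro _; rw [h0]; exact EventuallyEq.refl _ _
      | succ t ih =>
        intro ht
        exact Or.inr ⟨p t, ih (by omega), hp t (by omega)⟩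
    have := key n le_rfl
    rw [hpn] at this
    exact bl_mono 𝒲 hn this

end KBT
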