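import Pool.Agent.KBT.PPkill

set_option autoImplicit false

namespace KBT

variable {A : Type} [BooleanAlgebra A]

/-- Lifting of half graphs to elements, for symmetric relations. -/
theorem hglift {f : A → A} (htop : f ⊤ = ⊤) (hinf : ∀ a b : A, f (a ⊓ b) = f a ⊓ f b)
    (hB : ∀ a : A, a ≤ f (dia f a)) (N : ℕ) (a b : ℕ → Pt A)
    (hab : ∀ s < N, ∀ t < N, (Rel f (a s) (b t) ↔ t ≤ s) ∧ a s ≠ b t) :
    ∃ U W : ℕ → A, (∀ s < N, U s ∈ (a s).s) ∧ (∀ s < N, W s ∈ (b s).s) ∧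
      (∀ s t, s < t → t < N → ∀ F : Pt A, U s ∈ F.s → dia f (W t) ∉ F.s) ∧
      (∀ s t, s < t → t < N → ∀ F : Pt A, W t ∈ F.s → dia f (U s) ∉ F.s) ∧
      (∀ s t, t ≤ s → s < N → ∀ F : Pt A, U s ∈ F.s → dia f (W t) ∈ F.s) ∧
      (∀ s < N, ∀ F : Pt A, W s ∈ F.s → dia f (U s) ∈ F.s) ∧
      (∀ s < N, ∀ t < N, ∀ F : Pt A, U s ∈ F.s → W t ∉ F.s) := by
  classical
  have hc : ∀ s t, ∃ c : A, c ∈ (b t).s ∧ (¬ Rel f (a s) (b t) → dia f c ∉ (a s).s) := by
    intro s t
    by_cases h : Rel f (a s) (b t)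
    · exact ⟨⊤, (b t).top_mem, fun h' => absurd h h'⟩
    · obtain ⟨u, hu1, hu2⟩ := not_rel _ _ h
      exact ⟨u, hu1, fun _ => hu2⟩
  choose c hc1 hc2 using hc
  have hd : ∀ s t, ∃ d : A, a s ≠ b t → (d ∈ (a s).s ∧ dᶜ ∈ (b t).s) := by
    intro s t
    by_cases h : a s = b t
    · exact ⟨⊤, fun h' => absurd h h'⟩
    · obtain ⟨d, h1, h2⟩ := ne_pt _ _ h
      exact ⟨d, fun _ => ⟨h1, h2⟩⟩
  choose d hd using hd
  let U0 : ℕ → A := fun s => (Finset.range N).inf
    (fun t => (if t ≤ s then ⊤ else (dia f (c s t))ᶜ) ⊓ d s t)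
  let W0 : ℕ → A := fun t => (Finset.range N).inf
    (fun s => (if t ≤ s then ⊤ else c s t) ⊓ (d s t)ᶜ)
  have hU0 : ∀ s < N, U0 s ∈ (a s).s := by
    intro s hs
    rw [finset_inf_mem]
    intro t ht
    have ht' := Finset.mem_range.mp ht
    rw [(a s).inf]
    refine ⟨?_, (hd s t (hab s hs t ht').2).1⟩
    split_ifs with h
    · exact (a s).top_mem
    · rw [(a s).compl]
      exact hc2 s t (fun h' => h ((hab s hs t ht').1.mp h'))
  have hW0 : ∀ t < N, W0 t ∈ (b t).s := by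
    intro t ht
    rw [finset_inf_mem]
    intro s hs
    have hs' := Finset.mem_range.mp hs
    rw [(b t).inf]
    refine ⟨?_, (hd s t (hab s hs' t ht).2).2⟩
    split_ifs with h
    · exact (b t).top_mem
    · exact hc1 s t
  have n1 : ∀ s t, s < t → t < N → ∀ F : Pt A, U0 s ∈ F.s → dia f (W0 t) ∉ F.s := by
    intro s t hst ht F hF hF2
    have h1 := (finset_inf_mem F _ _).mp hF t (Finset.mem_range.mpr ht)
    have hn : ¬ (t ≤ s) := by omega
    simp only [hn, if_false] at h1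
    rw [F.inf, F.compl] at h1
    apply h1.1
    refine F.mono (dia_mono hinf ?_) hF2
    have h2 : W0 t ≤ (if t ≤ s then ⊤ else c s t) ⊓ (d s t)ᶜ :=
      Finset.inf_le (f := fun s => (if t ≤ s then ⊤ else c s t) ⊓ (d s t)ᶜ)
        (Finset.mem_range.mpr (by omega))
    simp only [hn, if_false] at h2
    exact h2.trans inf_le_left
  have n2 : ∀ s < N, ∀ t < N, ∀ F : Pt A, U0 s ∈ F.s → W0 t ∉ F.s := by
    intro s hs t ht F hF hF2
    have h1 := (finset_inf_mem F _ _).mp hF t (Finset.mem_range.mpr ht)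
    have h2 := (finset_inf_mem F _ _).mp hF2 s (Finset.mem_range.mpr hs)
    rw [F.inf] at h1 h2
    rw [F.compl] at h2
    exact h2.2 h1.2
  have key : ∀ k ≤ N, ∃ U W : ℕ → A,
      (∀ s < k, U s ∈ (a s).s ∧ W s ∈ (b s).s ∧ U s ≤ U0 s ∧ W s ≤ W0 s) ∧
      (∀ s t, t ≤ s → s < k → U s ≤ dia f (W t)) ∧ (∀ s < k, W s ≤ dia f (U s)) := by
    intro k
    induction k with
    | zero =>
      intro _
      exact ⟨fun _ => ⊤, fun _ => ⊤, fun i hi => absurd hi (Nat.not_lt_zero i),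
        fun s t _ hs => absurd hs (Nat.not_lt_zero s), fun i hi => absurd hi (Nat.not_lt_zero i)⟩
    | succ k ih =>
      intro hk
      obtain ⟨U, W, h1, h2, h3⟩ := ih (by omega)
      let Uk : A := (U0 k ⊓ (Finset.range k).inf (fun t => dia f (W t))) ⊓ dia f (W0 k)
      let Wk : A := W0 k ⊓ dia f Uk
      have hUk : Uk ∈ (a k).s := by
        show (U0 k ⊓ (Finset.range k).inf (fun t => dia f (W t))) ⊓ dia f (W0 k) ∈ (a k).s
        rw [(a k).inf, (a k).inf]
        refine ⟨⟨hU0 k (by omega), ?_⟩, ?_⟩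
        · rw [finset_inf_mem]
          intro t ht
          have ht' := Finset.mem_range.mp ht
          exact (dia_mem htop hinf _ _).mpr ⟨b t, (hab k (by omega) t (by omega)).1.mpr (by omega),
            (h1 t ht').2.1⟩
        · exact (dia_mem htop hinf _ _).mpr ⟨b k, (hab k (by omega) k (by omega)).1.mpr le_rfl,
            hW0 k (by omega)⟩
      have hWk : Wk ∈ (b k).s := by
        show W0 k ⊓ dia f Uk ∈ (b k).s
        rw [(b k).inf]
        refine ⟨hW0 k (by omega), (dia_mem htop hinf _ _).mpr ⟨a k, ?_, hUk⟩⟩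
        exact rel_symm hB _ _ ((hab k (by omega) k (by omega)).1.mpr le_rfl)
      have hUW : Uk ≤ dia f Wk := by
        apply le_of_pts
        intro F hF
        have hF' : dia f (W0 k) ∈ F.s := F.mono inf_le_right hF
        obtain ⟨G, hFG, hG⟩ := (dia_mem htop hinf _ _).mp hF'
        refine (dia_mem htop hinf _ _).mpr ⟨G, hFG, ?_⟩
        show W0 k ⊓ dia f Uk ∈ G.s
        rw [G.inf]
        exact ⟨hG, (dia_mem htop hinf _ _).mpr ⟨F, rel_symm hB _ _ hFG, hF⟩⟩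
      refine ⟨fun i => if i = k then Uk else U i, fun i => if i = k then Wk else W i, ?_, ?_, ?_⟩
      · intro s hs
        by_cases hsk : s = k
        · simp only [hsk, if_true]
          exact ⟨hUk, hWk, inf_le_left.trans inf_le_left, inf_le_left⟩
        · simp only [hsk, if_false]
          exact h1 s (by omega)
      · intro s t hts hs
        by_cases hsk : s = k
        · by_cases htk : t = k
          · simp only [hsk, htk, if_true]
            exact hUW
          · simp only [hsk, htk, if_true, if_false]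
            exact inf_le_left.trans (inf_le_right.trans (Finset.inf_le
              (f := fun t => dia f (W t)) (Finset.mem_range.mpr (by omega))))
        · have htk : t ≠ k := by omega
          simp only [hsk, htk, if_false]
          exact h2 s t hts (by omega)
      · intro s hs
        by_cases hsk : s = k
        · simp only [hsk, if_true]
          exact inf_le_right
        · simp only [hsk, if_false]
          exact h3 s (by omega)
  obtain ⟨U, W, h1, h2, h3⟩ := key N le_rfl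
  have m1 : ∀ s t, s < t → t < N → ∀ F : Pt A, U s ∈ F.s → dia f (W t) ∉ F.s := by
    intro s t hst ht F hF hF2
    exact n1 s t hst ht F (F.mono (h1 s (by omega)).2.2.1 hF)
      (F.mono (dia_mono hinf (h1 t ht).2.2.2) hF2)
  refine ⟨U, W, fun s hs => (h1 s hs).1, fun s hs => (h1 s hs).2.1, m1, ?_, ?_, ?_, ?_⟩
  · intro s t hst ht F hF hF2
    obtain ⟨G, hFG, hG⟩ := (dia_mem htop hinf _ _).mp hF2
    exact m1 s t hst ht G hG ((dia_mem htop hinf _ _).mpr ⟨F, rel_symm hB _ _ hFG, hF⟩)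
  · intro s t hts hs F hF
    exact F.mono (h2 s t hts hs) hF
  · intro s hs F hF
    exact F.mono (h3 s hs) hF
  · intro s hs t ht F hF hF2
    exact n2 s hs t ht F (F.mono (h1 s hs).2.2.1 hF) (F.mono (h1 t ht).2.2.2 hF2)

/-- Long half graphs among the points give large 2-generated subalgebras. -/
theorem hgkill {f : A → A} (htop : f ⊤ = ⊤) (hinf : ∀ a b : A, f (a ⊓ b) = f a ⊓ f b)
    (hB : ∀ a : A, a ≤ f (dia f a)) (n : ℕ) (a b : ℕ → Pt A)
    (hab : ∀ i < n + 2, ∀ j < n + 2, (Rel f (a i) (b j) ↔ i < j) ∧ a i ≠ b j) :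
    ∃ (g : Fin 2 → A) (U : ℕ → A), (∀ i < n, Gen f g (U i)) ∧ ∀ i j, i < j → j < n → U i ≠ U j := by
  classical
  -- reverse the order
  obtain ⟨U, W, hU, hW, m1, m2, m3, m4, m5⟩ := hglift htop hinf hB (n+1) (fun s => a (n - s))
    (fun t => b (n + 1 - t)) (by
      intro s hs t ht
      obtain ⟨h1, h2⟩ := hab (n - s) (by omega) (n + 1 - t) (by omega)
      refine ⟨?_, h2⟩
      rw [h1]
      omega)
  -- remaining parts
  let Ar : ℕ → A := fun s => ((Finset.range (n+1)).filter (fun i => s ≤ i)).sup U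
  let Br : ℕ → ℕ → A := fun q s =>
    ((Finset.range (n+1)).filter (fun i => s ≤ i ∧ i % 2 = q % 2)).sup W
  have hAr : ∀ s (F : Pt A), Ar s ∈ F.s ↔ ∃ i, (i < n + 1 ∧ s ≤ i) ∧ U i ∈ F.s := by
    intro s F
    simp only [Ar, finset_sup_mem, Finset.mem_filter, Finset.mem_range]
  have hBr : ∀ q s (F : Pt A), Br q s ∈ F.s ↔
      ∃ i, (i < n + 1 ∧ (s ≤ i ∧ i % 2 = q % 2)) ∧ W i ∈ F.s := by
    intro q s F
    simp only [Br, finset_sup_mem, Finset.mem_filter, Finset.mem_range]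
  have hdB : ∀ q s (F : Pt A), dia f (Br q s) ∈ F.s ↔
      ∃ i, (i < n + 1 ∧ (s ≤ i ∧ i % 2 = q % 2)) ∧ dia f (W i) ∈ F.s := by
    intro q s F
    rw [dia_mem htop hinf]
    constructor
    · rintro ⟨G, hFG, hG⟩
      obtain ⟨i, hi, hWi⟩ := (hBr q s G).mp hG
      exact ⟨i, hi, (dia_mem htop hinf _ _).mpr ⟨G, hFG, hWi⟩⟩
    · rintro ⟨i, hi, hWi⟩
      obtain ⟨G, hFG, hG⟩ := (dia_mem htop hinf _ _).mp hWi
      exact ⟨G, hFG, (hBr q s G).mpr ⟨i, hi, hG⟩⟩
  have hWdisj : ∀ i j, i < n + 1 → j < n + 1 → i ≠ j → ∀ F : Pt A, W i ∈ F.s → W j ∉ F.s := by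
    have : ∀ i j, i < j → j < n + 1 → ∀ F : Pt A, W i ∈ F.s → W j ∉ F.s := by
      intro i j hij hj F hF hF2
      exact m2 i j hij hj F hF2 (m4 i (by omega) F hF)
    intro i j hi hj hij F hF hF2
    rcases lt_or_gt_of_ne hij with h | h
    · exact this i j h hj F hF hF2
    · exact this j i h hi F hF2 hF
  let g : Fin 2 → A := ![Ar 0 ⊔ Br 0 0, Ar 0 ⊔ Br 1 0]
  have g0 : Gen f g (Ar 0 ⊔ Br 0 0) := Gen.gen (f := f) (g := g) 0
  have g1 : Gen f g (Ar 0 ⊔ Br 1 0) := Gen.gen (f := f) (g := g) 1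
  have dBB : ∀ F : Pt A, Br 0 0 ∈ F.s → Br 1 0 ∉ F.s := by
    intro F h1 h2
    obtain ⟨i, ⟨hi1, _, hi2⟩, hi3⟩ := (hBr _ _ _).mp h1
    obtain ⟨j, ⟨hj1, _, hj2⟩, hj3⟩ := (hBr _ _ _).mp h2
    exact hWdisj i j hi1 hj1 (by omega) F hi3 hj3
  have dAB : ∀ q (F : Pt A), Ar 0 ∈ F.s → Br q 0 ∉ F.s := by
    intro q F h1 h2
    obtain ⟨i, ⟨hi1, _⟩, hi3⟩ := (hAr _ _).mp h1
    obtain ⟨j, ⟨hj1, _, hj2⟩, hj3⟩ := (hBr _ _ _).mp h2
    exact m5 i hi1 j hj1 F hi3 hj3
  have gA : Gen f g (Ar 0) := by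
    have : Ar 0 = (Ar 0 ⊔ Br 0 0) ⊓ (Ar 0 ⊔ Br 1 0) := by
      apply ext_pts
      intro F
      rw [F.inf, F.sup, F.sup]
      have := dBB F
      tauto
    rw [this]
    exact Gen.inf _ _ g0 g1
  have gB0 : Gen f g (Br 0 0) := by
    have : Br 0 0 = (Ar 0 ⊔ Br 0 0) ⊓ (Ar 0 ⊔ Br 1 0)ᶜ := by
      apply ext_pts
      intro F
      rw [F.inf, F.compl, F.sup, F.sup]
      have := dBB F
      have := dAB 0 F
      tauto
    rw [this]
    exact Gen.inf _ _ g0 (Gen.compl _ g1)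
  have gB1 : Gen f g (Br 1 0) := by
    have : Br 1 0 = (Ar 0 ⊔ Br 1 0) ⊓ (Ar 0 ⊔ Br 0 0)ᶜ := by
      apply ext_pts
      intro F
      rw [F.inf, F.compl, F.sup, F.sup]
      have := dBB F
      have := dAB 1 F
      tauto
    rw [this]
    exact Gen.inf _ _ g1 (Gen.compl _ g0)
  have hBmod : ∀ q s, Br q s = Br (q % 2) s := by
    intro q s
    simp only [Br, Nat.mod_mod]
  -- the step
  have stepU : ∀ s < n, U s = Ar s ⊓ (dia f (Br (s+1) s))ᶜ := by
    intro s hs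
    apply ext_pts
    intro F
    rw [F.inf, F.compl, hAr, hdB]
    constructor
    · intro hF
      refine ⟨⟨s, ⟨by omega, le_rfl⟩, hF⟩, ?_⟩
      rintro ⟨i, ⟨h1, h2, h3⟩, h4⟩
      have : s < i := by
        rcases Nat.lt_or_ge s i with h | h
        · exact h
        · have : i = s := by omega
          omega
      exact m1 s i this h1 F hF h4
    · rintro ⟨⟨i, ⟨h1, h2⟩, h3⟩, h4⟩
      by_cases hi : i = s
      · rw [← hi]; exact h3
      · exfalso
        apply h4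
        exact ⟨s+1, ⟨by omega, by omega, rfl⟩, m3 i (s+1) (by omega) h1 F h3⟩
  have stepA : ∀ s < n, Ar (s+1) = Ar s ⊓ dia f (Br (s+1) s) := by
    intro s hs
    apply ext_pts
    intro F
    rw [F.inf, hAr, hAr, hdB]
    constructor
    · rintro ⟨i, ⟨h1, h2⟩, h3⟩
      exact ⟨⟨i, ⟨h1, by omega⟩, h3⟩, ⟨s+1, ⟨by omega, by omega, rfl⟩, m3 i (s+1) h2 h1 F h3⟩⟩
    · rintro ⟨⟨i, ⟨h1, h2⟩, h3⟩, ⟨j, ⟨h4, h5, h6⟩, h7⟩⟩
      by_cases hi : i = s
      · exfalso
        subst hi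
        exact m1 i j (by
          rcases Nat.lt_or_ge i j with h | h
          · exact h
          · have : i = j := by omega
            omega) h4 F h3 h7
      · exact ⟨i, ⟨h1, by omega⟩, h3⟩
  have stepB : ∀ s < n, Br s (s+1) = Br s s ⊓ (dia f (U s))ᶜ := by
    intro s hs
    apply ext_pts
    intro F
    rw [F.inf, F.compl, hBr, hBr]
    constructor
    · rintro ⟨i, ⟨h1, h2, h3⟩, h4⟩
      exact ⟨⟨i, ⟨h1, by omega, h3⟩, h4⟩, m2 s i (by omega) h1 F h4⟩
    · rintro ⟨⟨i, ⟨h1, h2, h3⟩, h4⟩, h5⟩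
      by_cases hi : i = s
      · exfalso
        subst hi
        exact h5 (m4 i h1 F h4)
      · exact ⟨i, ⟨h1, by omega, h3⟩, h4⟩
  have stepB' : ∀ s < n, Br (s+1) (s+1) = Br (s+1) s := by
    intro s hs
    apply ext_pts
    intro F
    rw [hBr, hBr]
    constructor
    · rintro ⟨i, ⟨h1, h2, h3⟩, h4⟩
      exact ⟨i, ⟨h1, by omega, h3⟩, h4⟩
    · rintro ⟨i, ⟨h1, h2, h3⟩, h4⟩
      refine ⟨i, ⟨h1, ?_, h3⟩, h4⟩
      rcases Nat.lt_or_ge s i with h | h
      · exact h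
      · have : i = s := by omega
        omega
  have main : ∀ s, s ≤ n → Gen f g (Ar s) ∧ Gen f g (Br s s) ∧ Gen f g (Br (s+1) s) := by
    intro s
    induction s with
    | zero => intro _; exact ⟨gA, gB0, gB1⟩
    | succ s ih =>
      intro hs
      obtain ⟨i1, i2, i3⟩ := ih (by omega)
      have gU : Gen f g (U s) := by
        rw [stepU s (by omega)]
        exact Gen.inf _ _ i1 (Gen.compl _ (Gen.dia' i3))
      refine ⟨?_, ?_, ?_⟩
      · rw [stepA s (by omega)]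
        exact Gen.inf _ _ i1 (Gen.dia' i3)
      · rw [stepB' s (by omega)]
        exact i3
      · have e1 : Br (s+1+1) (s+1) = Br s (s+1) := by
          rw [hBmod (s+1+1), hBmod s]
          have : (s + 1 + 1) % 2 = s % 2 := by omega
          rw [this]
        rw [e1, stepB s (by omega)]
        exact Gen.inf _ _ i2 (Gen.compl _ (Gen.dia' gU))
  refine ⟨g, U, ?_, ?_⟩
  · intro s hs
    obtain ⟨i1, i2, i3⟩ := main s (by omega)
    rw [stepU s hs]
    exact Gen.inf _ _ i1 (Gen.compl _ (Gen.dia' i3))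
  · intro i j hij hj heq
    have e1 := hU j (by omega)
    have e2 := m3 j (i+1) (by omega) (by omega) _ e1
    rw [← heq] at e1
    exact m1 i (i+1) (by omega) (by omega) _ e1 e2

end KBT
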