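import Pool.Agent.KBT.Dual

set_option autoImplicit false

namespace KBT

variable {A : Type} [BooleanAlgebra A]

theorem finset_inf_mem (F : Pt A) {ι : Type*} (s : Finset ι) (u : ι → A) :
    s.inf u ∈ F.s ↔ ∀ i ∈ s, u i ∈ F.s := by
  classical
  induction s using Finset.induction_on with
  | empty => simp [F.top_mem]
  | insert i s _ ih =>
    rw [Finset.inf_insert, F.inf, ih]
    constructor
    · rintro ⟨h1, h2⟩ j hj
      rcases Finset.mem_insert.mp hj with h3 | h3
      · rw [h3]; exact h1
      · exact h2 j h3
    · intro h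
      exact ⟨h i (Finset.mem_insert_self i s), fun j hj => h j (Finset.mem_insert_of_mem hj)⟩

/-- Lower triangular lifting of a finite list of points to elements. -/
theorem liftP {f : A → A} (htop : f ⊤ = ⊤) (hinf : ∀ a b : A, f (a ⊓ b) = f a ⊓ f b)
    (p : ℕ → Pt A) (n : ℕ) :
    ∃ P : ℕ → A, (∀ i < n, P i ∈ (p i).s) ∧
      ∀ a b, a < b → b < n → ((Rel f (p b) (p a) → P b ≤ dia f (P a)) ∧
        (¬ Rel f (p b) (p a) → P b ⊓ dia f (P a) = ⊥)) := by
  classical
  have hu : ∀ b a, ∃ u : A, u ∈ (p a).s ∧ (¬ Rel f (p b) (p a) → dia f u ∉ (p b).s) := by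
    intro b a
    by_cases h : Rel f (p b) (p a)
    · exact ⟨⊤, (p a).top_mem, fun h' => absurd h h'⟩
    · obtain ⟨u, hu1, hu2⟩ := not_rel _ _ h
      exact ⟨u, hu1, fun _ => hu2⟩
  choose u hu1 hu2 using hu
  let P0 : ℕ → A := fun a => (Finset.range n).inf (fun b => u b a)
  have hP0 : ∀ a, P0 a ∈ (p a).s := fun a => (finset_inf_mem _ _ _).mpr fun b _ => hu1 b a
  have key : ∀ k ≤ n, ∃ P : ℕ → A, (∀ i < k, P i ∈ (p i).s ∧ P i ≤ P0 i) ∧
      ∀ a b, a < b → b < k → ((Rel f (p b) (p a) → P b ≤ dia f (P a)) ∧
        (¬ Rel f (p b) (p a) → P b ⊓ dia f (P a) = ⊥)) := by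
    intro k
    induction k with
    | zero =>
      intro _
      exact ⟨fun _ => ⊤, fun i hi => absurd hi (Nat.not_lt_zero i),
        fun a b _ hb => absurd hb (Nat.not_lt_zero b)⟩
    | succ k ih =>
      intro hk
      obtain ⟨P, h1, h2⟩ := ih (by omega)
      let q : ℕ → A := fun a => if Rel f (p k) (p a) then dia f (P a) else (dia f (P a))ᶜ
      have hq : ∀ a < k, q a ∈ (p k).s := by
        intro a ha
        by_cases h : Rel f (p k) (p a)
        · simp only [q, h, if_true]
          exact (dia_mem htop hinf _ _).mpr ⟨p a, h, (h1 a ha).1⟩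
        · simp only [q, h, if_false]
          rw [(p k).compl]
          intro h3
          have h4 : P a ≤ u k a := (h1 a ha).2.trans (Finset.inf_le (Finset.mem_range.mpr (by omega)))
          exact hu2 k a h ((p k).mono (dia_mono hinf h4) h3)
      refine ⟨fun i => if i = k then P0 k ⊓ (Finset.range k).inf q else P i, ?_, ?_⟩
      · intro i hi
        by_cases hik : i = k
        · simp only [hik, if_true]
          refine ⟨?_, inf_le_left⟩
          rw [(p k).inf]
          exact ⟨hP0 k, (finset_inf_mem _ _ _).mpr fun a ha => hq a (Finset.mem_range.mp ha)⟩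
        · simp only [hik, if_false]
          exact h1 i (by omega)
      · intro a b hab hb
        have hak : a ≠ k := by omega
        by_cases hbk : b = k
        · simp only [hbk, hak, if_true, if_false]
          have h3 : P0 k ⊓ (Finset.range k).inf q ≤ q a :=
            inf_le_right.trans (Finset.inf_le (Finset.mem_range.mpr (by omega)))
          constructor
          · intro h
            simp only [q, h, if_true] at h3
            exact h3
          · intro h
            simp only [q, h, if_false] at h3
            rw [← le_bot_iff]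
            calc (P0 k ⊓ (Finset.range k).inf q) ⊓ dia f (P a)
                ≤ (dia f (P a))ᶜ ⊓ dia f (P a) := inf_le_inf_right _ h3
              _ = ⊥ := compl_inf_eq_bot
        · simp only [hbk, hak, if_false]
          exact h2 a b hab (by omega)
  obtain ⟨P, h1, h2⟩ := key n le_rfl
  exact ⟨P, fun i hi => (h1 i hi).1, h2⟩

end KBT
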