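import Pool.Agent.KBT.DL
import Pool.Agent.KBT.Plg
import Pool.Agent.KBT.Dec
import Pool.Agent.KBT.SeqExt

set_option autoImplicit false

namespace KBT

open Filter

theorem tame_mono {V : Type*} {R : V → V → Prop} {C : Set V} {c N N' : ℕ} (h : N ≤ N')
    (hT : Tame R C c N) : Tame R C c N' := by
  intro χ
  obtain ⟨π, h1, h2⟩ := hT χ
  refine ⟨fun x => Fin.castLE h (π x), ?_, ?_⟩
  · intro x hx y hy hxy z hz hxz
    obtain ⟨z', hz', h3, h4⟩ := h1 x hx y hy (Fin.castLE_injective h hxy) z hz hxz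
    exact ⟨z', hz', h3, by dsimp only; rw [h4]⟩
  · intro x hx y hy hxy
    exact h2 x hx y hy (Fin.castLE_injective h hxy)

theorem diag {β : Type*} [Nonempty β] (Q : ℕ → ℕ → β → Prop)
    (hmono : ∀ n N N' K, N' ≤ N → Q n N K → Q n N' K)
    (h : ∀ N, ∀ᶠ n in (hyperfilter ℕ : Filter ℕ), ∃ K, Q n N K) :
    ∃ K : ℕ → β, ∀ N, ∀ᶠ n in (hyperfilter ℕ : Filter ℕ), Q n N (K n) := by
  classical
  have hch : ∀ n, ∃ K, ∀ N ≤ n, (∃ K', Q n N K') → Q n N K := by
    intro n
    by_cases hex : ∃ N ≤ n, ∃ K', Q n N K'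
    · obtain ⟨N, hN, hK⟩ := hex
      have h1 : ∃ K', Q n (Nat.findGreatest (fun N => ∃ K', Q n N K') n) K' :=
        Nat.findGreatest_spec (P := fun N => ∃ K', Q n N K') hN hK
      obtain ⟨K, hK⟩ := h1
      refine ⟨K, fun N' hN' hK' => ?_⟩
      exact hmono n _ N' K (Nat.le_findGreatest (P := fun N => ∃ K', Q n N K') hN' hK') hK
    · exact ⟨Classical.arbitrary β, fun N hN hK => absurd ⟨N, hN, hK⟩ hex⟩
  choose K hK using hch
  refine ⟨K, fun N => ?_⟩
  have h1 : ∀ᶠ n in (hyperfilter ℕ : Filter ℕ), N ≤ n := by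
    have h2 : ∀ᶠ a in (cofinite : Filter ℕ), N ≤ a := by
      rw [Nat.cofinite_eq_atTop]
      exact eventually_ge_atTop N
    exact Filter.hyperfilter_le_cofinite h2
  filter_upwards [h1, h N] with n h2 h3
  exact hK n N h2 h3

/-- A new point in a set which is not tame. -/
theorem pt {V : Type} {R : V → V → Prop} {C : ℕ → Set V} (hC : NT R C) (T : Finset (ℕ → V)) :
    ∃ v : ℕ → V, (∀ᶠ n in (hyperfilter ℕ : Filter ℕ), v n ∈ C n) ∧
      ∀ s ∈ T, ∀ᶠ n in (hyperfilter ℕ : Filter ℕ), v n ≠ s n := by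
  classical
  obtain ⟨c, hc⟩ := hC
  have h1 : ∀ᶠ n in (hyperfilter ℕ : Filter ℕ), ∃ a ∈ C n, ∀ s ∈ T, a ≠ s n := by
    filter_upwards [hc (T.card + 1)] with n hn
    by_contra hcon
    push Not at hcon
    apply hn
    intro χ
    have hch : ∀ a : V, ∃ i : Fin (T.card + 1), a ∈ C n →
        ∃ s : {s // s ∈ T}, a = s.1 n ∧ (T.equivFin s).castSucc = i := by
      intro a
      by_cases ha : a ∈ C n
      · obtain ⟨s, hs, h2⟩ := hcon a ha
        exact ⟨_, fun _ => ⟨⟨s, hs⟩, h2, rfl⟩⟩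
      · exact ⟨0, fun h => absurd h ha⟩
    choose π hπ using hch
    have hinj : ∀ x ∈ C n, ∀ y ∈ C n, π x = π y → x = y := by
      intro x hx y hy hxy
      obtain ⟨s, h2, h3⟩ := hπ x hx
      obtain ⟨s', h4, h5⟩ := hπ y hy
      rw [← hxy, ← h3] at h5
      have h6 : s' = s := T.equivFin.injective (Fin.castSucc_injective _ h5)
      rw [h2, h4, h6]
    refine ⟨π, ?_, ?_⟩
    · intro x hx y hy hxy z hz hxz
      have := hinj x hx y hy hxy
      subst this
      exact ⟨z, hz, hxz, rfl⟩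
    · intro x hx y hy hxy
      rw [hinj x hx y hy hxy]
  have hV : Nonempty V := by
    obtain ⟨n, a, _⟩ := h1.exists
    exact ⟨a⟩
  refine ⟨fun n => if hn : ∃ a ∈ C n, ∀ s ∈ T, a ≠ s n then hn.choose
    else Classical.arbitrary V, ?_, ?_⟩
  · filter_upwards [h1] with n hn
    simp only [hn, dite_true]
    exact hn.choose_spec.1
  · intro s hs
    filter_upwards [h1] with n hn
    simp only [hn, dite_true]
    exact hn.choose_spec.2 s hs

theorem tpn {V : Type*} {R : V → V → Prop} (T : Finset (ℕ → V)) (f : ℕ → V) :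
    ∀ᶠ n in (hyperfilter ℕ : Filter ℕ),
      Subtype.val '' {s : {s // s ∈ T} | R (f n) (s.1 n)} = tp (Rs (hyperfilter ℕ) R) T f := by
  classical
  have h1 : ∀ᶠ n in (hyperfilter ℕ : Filter ℕ), ∀ s ∈ T,
      (R (f n) (s n) ↔ Rs (hyperfilter ℕ) R f s) := by
    rw [eventually_all_finset]
    exact fun s _ => ev_dec (hyperfilter ℕ) (fun n => R (f n) (s n))
  filter_upwards [h1] with n hn
  ext s
  constructor
  · rintro ⟨⟨s', hs'⟩, h2, rfl⟩
    exact ⟨hs', (hn s' hs').mp h2⟩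
  · rintro ⟨h2, h3⟩
    exact ⟨⟨s, h2⟩, (hn s h2).mpr h3, rfl⟩

/-- One step: inside one component of a flip. -/
theorem one {V : Type} {R : V → V → Prop} (hR : ∀ x y, R x y → R y x) {m : ℕ} (hX : ¬ PP R m)
    (C : ℕ → Set V) (hC : NT R C) (T : Finset (ℕ → V))
    (Φ : Set (ℕ → V) → Set (ℕ → V) → Prop) (hΦ : ∀ a b, Φ a b → Φ b a) :
    ∃ C' : ℕ → Set V, (∀ n, C' n ⊆ C n) ∧ NT R C' ∧
      ∀ x y : ℕ → V, (∀ᶠ n in (hyperfilter ℕ : Filter ℕ), x n ∈ C' n) →
        (∀ᶠ n in (hyperfilter ℕ : Filter ℕ), y n ∈ C' n) →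
        Relation.ReflTransGen (EF (Rs (hyperfilter ℕ) R) T Φ) x y ∨
          ∀ᶠ n in (hyperfilter ℕ : Filter ℕ), x n = y n := by
  classical
  obtain ⟨c, hc⟩ := hC
  let t : ℕ → V → Set {s // s ∈ T} := fun n a => {s | R a (s.1 n)}
  let Φ' : Set {s // s ∈ T} → Set {s // s ∈ T} → Prop :=
    fun A B => Φ (Subtype.val '' A) (Subtype.val '' B)
  let E : ℕ → V → V → Prop := fun n a b => ¬ (R (id a) (id b) ↔ Φ' (t n a) (t n b))
  have hEs : ∀ n a b, E n a b → E n b a := by
    intro n a b hab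
    have e1 : R (id b) (id a) ↔ R (id a) (id b) := ⟨hR _ _, hR _ _⟩
    have e2 : Φ' (t n b) (t n a) ↔ Φ' (t n a) (t n b) := ⟨hΦ _ _, hΦ _ _⟩
    show ¬ (R (id b) (id a) ↔ Φ' (t n b) (t n a))
    rw [e1, e2]
    exact hab
  let comp : ℕ → V → Set V := fun n a => {b | Relation.ReflTransGen (E n) a b}
  have hsymm : ∀ n a b, Relation.ReflTransGen (E n) a b → Relation.ReflTransGen (E n) b a := by
    intro n a b hab
    induction hab with
    | refl => exact Relation.ReflTransGen.refl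
    | @tail b c _ hbc ih => exact Relation.ReflTransGen.head (hEs _ _ _ hbc) ih
  have hcomp1 : ∀ n a b, E n a b → comp n a = comp n b := by
    intro n a b hab
    ext d
    exact ⟨fun h => Relation.ReflTransGen.head (hEs _ _ _ hab) h,
      fun h => Relation.ReflTransGen.head hab h⟩
  have hcomp2 : ∀ n a b, comp n a = comp n b → Relation.ReflTransGen (E n) a b := by
    intro n a b hab
    have : b ∈ comp n b := Relation.ReflTransGen.refl
    rw [← hab] at this
    exact this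
  set k : ℕ := Fintype.card (Set {s // s ∈ T}) with hk
  let eκ : Set {s // s ∈ T} ≃ Fin k := Fintype.equivFin _
  obtain ⟨K, hK⟩ := diag (β := Set V)
    (fun n N w => ¬ Tame R (C n ∩ {x | comp n x = w}) (c * k) N)
    (fun n N N' w hNN h1 h2 => h1 (tame_mono hNN h2))
    (by
      intro N
      obtain ⟨g, hg⟩ := dl c k N
      filter_upwards [hc g] with n hn
      by_contra hcon
      push Not at hcon
      refine hn (hg R (C n) (fun a => eκ (t n a)) (fun i j => Φ' (eκ.symm i) (eκ.symm j))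
        (comp n) ?_ hcon)
      intro x _ y _ hxy
      by_contra hE
      apply hxy
      apply hcomp1
      simp only [Equiv.symm_apply_apply] at hE
      exact hE)
  refine ⟨fun n => C n ∩ {x | comp n x = K n}, fun n => Set.inter_subset_left,
    ⟨c * k, hK⟩, ?_⟩
  intro x y hx hy
  set bd : ℕ := (Fintype.card (Set {s // s ∈ T}) ^ (m+1) + 1) * (m+2) with hbd
  have hpath : ∀ n : ℕ, ∃ (l : ℕ) (p : ℕ → V), comp n (x n) = comp n (y n) →
      l ≤ bd ∧ p 0 = x n ∧ p l = y n ∧ ∀ i < l, E n (p i) (p (i+1)) := by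
    intro n
    by_cases hn : comp n (x n) = comp n (y n)
    · obtain ⟨l, hl, p, h1, h2, h3⟩ := plg R hR id (t n) Φ' (fun a b => hΦ _ _) m hX
        (hcomp2 n _ _ hn)
      exact ⟨l, p, fun _ => ⟨hl, h1, h2, h3⟩⟩
    · exact ⟨0, fun _ => x n, fun h => absurd h hn⟩
  choose l p hp using hpath
  have hgood : ∀ᶠ n in (hyperfilter ℕ : Filter ℕ), comp n (x n) = comp n (y n) := by
    filter_upwards [hx, hy] with n h1 h2
    exact h1.2.trans h2.2.symm
  have hl : ∃ ℓ ∈ (Set.Iic bd), ∀ᶠ n in (hyperfilter ℕ : Filter ℕ), l n = ℓ := by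
    refine ev_pigeon (hyperfilter ℕ) (Set.finite_Iic bd) l ?_
    filter_upwards [hgood] with n hn
    exact (hp n hn).1
  obtain ⟨ℓ, _, hℓ⟩ := hl
  rcases Nat.eq_zero_or_pos ℓ with h0 | hpos
  · right
    subst h0
    filter_upwards [hℓ, hgood] with n h1 h2
    obtain ⟨_, h3, h4, _⟩ := hp n h2
    rw [h1] at h4
    rw [← h3, ← h4]
  left
  let good : ℕ → Prop := fun n => comp n (x n) = comp n (y n) ∧ l n = ℓ
  have hgd : ∀ᶠ n in (hyperfilter ℕ : Filter ℕ), good n := hgood.and hℓ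
  let P : ℕ → (ℕ → V) := fun i n => if good n then p n i else (if i = 0 then x n else y n)
  have hP0 : P 0 = x := by
    funext n
    by_cases hn : good n
    · simp only [P, hn, if_true]
      exact (hp n hn.1).2.1
    · simp only [P, hn, if_false, if_true]
  have hPl : P ℓ = y := by
    funext n
    by_cases hn : good n
    · simp only [P, hn, if_true]
      have := (hp n hn.1).2.2.1
      rw [hn.2] at this
      exact this
    · have : ℓ ≠ 0 := by omega
      simp only [P, hn, if_false, this]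
  have hstep : ∀ i < ℓ, EF (Rs (hyperfilter ℕ) R) T Φ (P i) (P (i+1)) := by
    intro i hi
    obtain ⟨n, ⟨⟨h1, h2⟩, h3⟩, h4⟩ := (((hgd.and (tpn (R := R) T (P i))).and
      (tpn (R := R) T (P (i+1)))).and
      (ev_dec (hyperfilter ℕ) (fun n => R (P i n) (P (i+1) n)))).exists
    have h5 := (hp n h1.1).2.2.2 i (by rw [h1.2]; exact hi)
    have e1 : P i n = p n i := by simp only [P, h1, if_true]
    have e2 : P (i+1) n = p n (i+1) := by simp only [P, h1, if_true]
    unfold EF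
    have e3 : Rs (hyperfilter ℕ) R (P i) (P (i+1)) ↔ R (P i n) (P (i+1) n) := h4.symm
    rw [e3, ← h2, ← h3, e1, e2]
    exact h5
  have hreach : ∀ i ≤ ℓ, Relation.ReflTransGen (EF (Rs (hyperfilter ℕ) R) T Φ) (P 0) (P i) := by
    intro i
    induction i with
    | zero => intro _; exact Relation.ReflTransGen.refl
    | succ i ih => intro hi; exact (ih (by omega)).tail (hstep i (by omega))
  have := hreach ℓ le_rfl
  rw [hP0, hPl] at this
  exact this

end KBT
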