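import Pool.Agent.KBT.LiftP

set_option autoImplicit false

namespace KBT

variable {A : Type} [BooleanAlgebra A]

theorem ext_pts (a b : A) (h : ∀ F : Pt A, a ∈ F.s ↔ b ∈ F.s) : a = b :=
  le_antisymm (le_of_pts a b fun F => (h F).mp) (le_of_pts b a fun F => (h F).mpr)

theorem eq_bot_iff_pts (a : A) : a = ⊥ ↔ ∀ F : Pt A, a ∉ F.s := by
  constructor
  · intro h F
    rw [h]
    exact F.bot_notMem
  · intro h
    exact ext_pts a ⊥ fun F => ⟨fun h1 => absurd h1 (h F), fun h1 => absurd h1 F.bot_notMem⟩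

theorem le_iff_pts (a b : A) : a ≤ b ↔ ∀ F : Pt A, a ∈ F.s → b ∈ F.s :=
  ⟨fun h F hF => F.mono h hF, le_of_pts a b⟩

theorem Gen.sup' {ι : Type} {f : A → A} {g : ι → A} {a b : A} (ha : Gen f g a) (hb : Gen f g b) :
    Gen f g (a ⊔ b) := by
  have := Gen.compl _ (Gen.inf _ _ (Gen.compl _ ha) (Gen.compl _ hb))
  rwa [compl_inf, compl_compl, compl_compl] at this

theorem Gen.dia' {ι : Type} {f : A → A} {g : ι → A} {a : A} (ha : Gen f g a) :
    Gen f g (dia f a) := Gen.compl _ (Gen.box _ (Gen.compl _ ha))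

theorem finset_sup_mem (F : Pt A) {ι : Type*} (s : Finset ι) (u : ι → A) :
    s.sup u ∈ F.s ↔ ∃ i ∈ s, u i ∈ F.s := by
  classical
  induction s using Finset.induction_on with
  | empty => simp [F.bot_notMem]
  | insert i s _ ih =>
    rw [Finset.sup_insert, F.sup, ih]
    constructor
    · rintro (h1 | ⟨j, h1, h2⟩)
      · exact ⟨i, Finset.mem_insert_self i s, h1⟩
      · exact ⟨j, Finset.mem_insert_of_mem h1, h2⟩
    · rintro ⟨j, hj, h2⟩
      rcases Finset.mem_insert.mp hj with h3 | h3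
      · left; rw [← h3]; exact h2
      · exact Or.inr ⟨j, h3, h2⟩

/-- Long pairs of parallel runs among the points give large 2-generated subalgebras. -/
theorem ppkill {f : A → A} (htop : f ⊤ = ⊤) (hinf : ∀ a b : A, f (a ⊓ b) = f a ⊓ f b) {m : ℕ}
    (hPP : PP (Rel f) m) :
    ∃ (g : Fin 2 → A) (U : ℕ → A), (∀ i < m, Gen f g (U i)) ∧ ∀ i j, i < j → j < m → U i ≠ U j := by
  classical
  rcases Nat.eq_zero_or_pos m with h0 | hm
  · subst h0
    exact ⟨fun _ => ⊥, fun _ => ⊥, fun i hi => absurd hi (Nat.not_lt_zero i),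
      fun i j _ hj => absurd hj (Nat.not_lt_zero j)⟩
  obtain ⟨v, w, h1, h2⟩ := hPP
  let p : ℕ → Pt A := fun n => if n % 2 = 0 then v (n / 2) else w (n / 2)
  obtain ⟨P, hP1, hP2⟩ := liftP htop hinf p (2 * m + 2)
  have hpe : ∀ a, p (2 * a) = v a := by
    intro a
    have e1 : 2 * a % 2 = 0 := by omega
    have e2 : 2 * a / 2 = a := by omega
    simp only [p, e1, e2, if_true]
  have hpo : ∀ a, p (2 * a + 1) = w a := by
    intro a
    have e1 : ¬ ((2 * a + 1) % 2 = 0) := by omega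
    have e2 : (2 * a + 1) / 2 = a := by omega
    simp only [p, e1, e2, if_false]
  let V : ℕ → A := fun a => P (2 * a)
  let W : ℕ → A := fun a => P (2 * a + 1)
  have hVV : ∀ a b, a < b → b ≤ m → ∀ F : Pt A, V b ∈ F.s →
      (dia f (V a) ∈ F.s ↔ Rel f (v b) (v a)) := by
    intro a b hab hb F hF
    obtain ⟨h3, h4⟩ := hP2 (2*a) (2*b) (by omega) (by omega)
    rw [hpe, hpe] at h3 h4
    by_cases h : Rel f (v b) (v a)
    · exact ⟨fun _ => h, fun _ => F.mono (h3 h) hF⟩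
    · refine ⟨fun h5 => ?_, fun h5 => absurd h5 h⟩
      exact absurd ((F.inf _ _).mpr ⟨hF, h5⟩) ((eq_bot_iff_pts _).mp (h4 h) F)
  have hVW : ∀ a b, a < b → b ≤ m → ∀ F : Pt A, V b ∈ F.s →
      (dia f (W a) ∈ F.s ↔ Rel f (v b) (w a)) := by
    intro a b hab hb F hF
    obtain ⟨h3, h4⟩ := hP2 (2*a+1) (2*b) (by omega) (by omega)
    rw [hpe, hpo] at h3 h4
    by_cases h : Rel f (v b) (w a)
    · exact ⟨fun _ => h, fun _ => F.mono (h3 h) hF⟩
    · refine ⟨fun h5 => ?_, fun h5 => absurd h5 h⟩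
      exact absurd ((F.inf _ _).mpr ⟨hF, h5⟩) ((eq_bot_iff_pts _).mp (h4 h) F)
  have hWV : ∀ a b, a < b → b ≤ m → ∀ F : Pt A, W b ∈ F.s →
      (dia f (V a) ∈ F.s ↔ Rel f (w b) (v a)) := by
    intro a b hab hb F hF
    obtain ⟨h3, h4⟩ := hP2 (2*a) (2*b+1) (by omega) (by omega)
    rw [hpe, hpo] at h3 h4
    by_cases h : Rel f (w b) (v a)
    · exact ⟨fun _ => h, fun _ => F.mono (h3 h) hF⟩
    · refine ⟨fun h5 => ?_, fun h5 => absurd h5 h⟩
      exact absurd ((F.inf _ _).mpr ⟨hF, h5⟩) ((eq_bot_iff_pts _).mp (h4 h) F)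
  have hWW : ∀ a b, a < b → b ≤ m → ∀ F : Pt A, W b ∈ F.s →
      (dia f (W a) ∈ F.s ↔ Rel f (w b) (w a)) := by
    intro a b hab hb F hF
    obtain ⟨h3, h4⟩ := hP2 (2*a+1) (2*b+1) (by omega) (by omega)
    rw [hpo, hpo] at h3 h4
    by_cases h : Rel f (w b) (w a)
    · exact ⟨fun _ => h, fun _ => F.mono (h3 h) hF⟩
    · refine ⟨fun h5 => ?_, fun h5 => absurd h5 h⟩
      exact absurd ((F.inf _ _).mpr ⟨hF, h5⟩) ((eq_bot_iff_pts _).mp (h4 h) F)
  let X : ℕ → A := fun a => (dia f (V a) ⊓ (dia f (W a))ᶜ) ⊔ ((dia f (V a))ᶜ ⊓ dia f (W a))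
  have hX : ∀ a (F : Pt A), X a ∈ F.s ↔ ¬ (dia f (V a) ∈ F.s ↔ dia f (W a) ∈ F.s) := by
    intro a F
    simp only [X, F.sup, F.inf, F.compl]
    tauto
  let Y : ℕ → A := fun a => if Rel f (v (a+1)) (v a) then dia f (V a) else (dia f (V a))ᶜ
  have hY : ∀ a (F : Pt A), Y a ∈ F.s ↔ (dia f (V a) ∈ F.s ↔ Rel f (v (a+1)) (v a)) := by
    intro a F
    by_cases h : Rel f (v (a+1)) (v a)
    · simp only [Y, h, if_true, iff_true]
    · simp only [Y, h, if_false, iff_false, F.compl]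
  -- V (a+1) and W (a+1)
  have c1 : ∀ a < m, ∀ F : Pt A, V (a+1) ∈ F.s → X a ∈ F.s ∧ Y a ∈ F.s := by
    intro a ha F hF
    obtain ⟨e1, e2, e3⟩ := h1 a ha
    have e4 := hVV a (a+1) (by omega) (by omega) F hF
    have e5 := hVW a (a+1) (by omega) (by omega) F hF
    rw [hX, hY]
    tauto
  have c2 : ∀ a < m, ∀ F : Pt A, W (a+1) ∈ F.s → X a ∈ F.s ∧ Y a ∉ F.s := by
    intro a ha F hF
    obtain ⟨e1, e2, e3⟩ := h1 a ha
    have e4 := hWV a (a+1) (by omega) (by omega) F hF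
    have e5 := hWW a (a+1) (by omega) (by omega) F hF
    rw [hX, hY]
    tauto
  have c3 : ∀ a b, a + 2 ≤ b → b ≤ m → ∀ F : Pt A, V b ∈ F.s → X a ∉ F.s := by
    intro a b hab hb F hF
    obtain ⟨e1, e2⟩ := h2 a b hab hb
    have e4 := hVV a b (by omega) hb F hF
    have e5 := hVW a b (by omega) hb F hF
    rw [hX]
    tauto
  have c4 : ∀ a b, a + 2 ≤ b → b ≤ m → ∀ F : Pt A, W b ∈ F.s → X a ∉ F.s := by
    intro a b hab hb F hF
    obtain ⟨e1, e2⟩ := h2 a b hab hb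
    have e4 := hWV a b (by omega) hb F hF
    have e5 := hWW a b (by omega) hb F hF
    rw [hX]
    tauto
  let U : ℕ → A := fun a => (Finset.Ioc a m).sup (fun b => V b ⊔ W b)
  have hU : ∀ a (F : Pt A), U a ∈ F.s ↔ ∃ b, (a < b ∧ b ≤ m) ∧ (V b ∈ F.s ∨ W b ∈ F.s) := by
    intro a F
    simp only [U, finset_sup_mem, Finset.mem_Ioc, F.sup]
  have c5 : ∀ a < m, ∀ F : Pt A, U (a+1) ∈ F.s → X a ∉ F.s := by
    intro a ha F hF
    rw [hU] at hF
    obtain ⟨b, ⟨h3, h4⟩, h5 | h5⟩ := hF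
    · exact c3 a b (by omega) h4 F h5
    · exact c4 a b (by omega) h4 F h5
  have c6 : ∀ a < m, ∀ F : Pt A, U a ∈ F.s ↔ V (a+1) ∈ F.s ∨ W (a+1) ∈ F.s ∨ U (a+1) ∈ F.s := by
    intro a ha F
    rw [hU, hU]
    constructor
    · rintro ⟨b, ⟨h3, h4⟩, h5⟩
      by_cases hb : b = a + 1
      · subst hb
        tauto
      · exact Or.inr (Or.inr ⟨b, ⟨by omega, h4⟩, h5⟩)
    · rintro (h3 | h3 | ⟨b, ⟨h3, h4⟩, h5⟩)
      · exact ⟨a+1, ⟨by omega, by omega⟩, Or.inl h3⟩
      · exact ⟨a+1, ⟨by omega, by omega⟩, Or.inr h3⟩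
      · exact ⟨b, ⟨by omega, h4⟩, h5⟩
  let g : Fin 2 → A := ![V 1 ⊔ U 1, W 1 ⊔ U 1]
  have g0 : Gen f g (V 1 ⊔ U 1) := Gen.gen (f := f) (g := g) 0
  have g1 : Gen f g (W 1 ⊔ U 1) := Gen.gen (f := f) (g := g) 1
  have b1 : Gen f g (V 1) := by
    have : V 1 = (V 1 ⊔ U 1) ⊓ (W 1 ⊔ U 1)ᶜ := by
      apply ext_pts
      intro F
      rw [F.inf, F.compl, F.sup, F.sup]
      have e1 := c1 0 hm F
      have e2 := c2 0 hm F
      have e3 := c5 0 hm F
      simp only [Nat.zero_add] at e1 e2 e3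
      tauto
    rw [this]
    exact Gen.inf _ _ g0 (Gen.compl _ g1)
  have b2 : Gen f g (W 1) := by
    have : W 1 = (W 1 ⊔ U 1) ⊓ (V 1 ⊔ U 1)ᶜ := by
      apply ext_pts
      intro F
      rw [F.inf, F.compl, F.sup, F.sup]
      have e1 := c1 0 hm F
      have e2 := c2 0 hm F
      have e3 := c5 0 hm F
      simp only [Nat.zero_add] at e1 e2 e3
      tauto
    rw [this]
    exact Gen.inf _ _ g1 (Gen.compl _ g0)
  have b3 : Gen f g (U 1) := by
    have : U 1 = (W 1 ⊔ U 1) ⊓ (V 1 ⊔ U 1) := by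
      apply ext_pts
      intro F
      rw [F.inf, F.sup, F.sup]
      have e1 := c1 0 hm F
      have e2 := c2 0 hm F
      have e3 := c5 0 hm F
      simp only [Nat.zero_add] at e1 e2 e3
      tauto
    rw [this]
    exact Gen.inf _ _ g1 g0
  have main : ∀ a, a < m → Gen f g (V (a+1)) ∧ Gen f g (W (a+1)) ∧ Gen f g (U (a+1)) := by
    intro a
    induction a with
    | zero => intro _; exact ⟨b1, b2, b3⟩
    | succ a ih =>
      intro ha
      obtain ⟨i1, i2, i3⟩ := ih (by omega)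
      have gX : Gen f g (X (a+1)) :=
        Gen.sup' (Gen.inf _ _ (Gen.dia' i1) (Gen.compl _ (Gen.dia' i2)))
          (Gen.inf _ _ (Gen.compl _ (Gen.dia' i1)) (Gen.dia' i2))
      have gY : Gen f g (Y (a+1)) := by
        by_cases h : Rel f (v (a+1+1)) (v (a+1))
        · simp only [Y, h, if_true]
          exact Gen.dia' i1
        · simp only [Y, h, if_false]
          exact Gen.compl _ (Gen.dia' i1)
      have d1 := c1 (a+1) ha
      have d2 := c2 (a+1) ha
      have d5 := c5 (a+1) ha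
      have d6 := c6 (a+1) ha
      refine ⟨?_, ?_, ?_⟩
      · have : V (a+1+1) = (U (a+1) ⊓ X (a+1)) ⊓ Y (a+1) := by
          apply ext_pts
          intro F
          rw [F.inf, F.inf]
          have e1 := d1 F
          have e2 := d2 F
          have e5 := d5 F
          have e6 := d6 F
          tauto
        rw [this]
        exact Gen.inf _ _ (Gen.inf _ _ i3 gX) gY
      · have : W (a+1+1) = (U (a+1) ⊓ X (a+1)) ⊓ (Y (a+1))ᶜ := by
          apply ext_pts
          intro F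
          rw [F.inf, F.inf, F.compl]
          have e1 := d1 F
          have e2 := d2 F
          have e5 := d5 F
          have e6 := d6 F
          tauto
        rw [this]
        exact Gen.inf _ _ (Gen.inf _ _ i3 gX) (Gen.compl _ gY)
      · have : U (a+1+1) = U (a+1) ⊓ (X (a+1))ᶜ := by
          apply ext_pts
          intro F
          rw [F.inf, F.compl]
          have e1 := d1 F
          have e2 := d2 F
          have e5 := d5 F
          have e6 := d6 F
          tauto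
        rw [this]
        exact Gen.inf _ _ i3 (Gen.compl _ gX)
  refine ⟨g, fun i => V (i+1), fun i hi => (main i hi).1, ?_⟩
  intro i j hij hj heq
  have e1 : V (j+1) ∈ (p (2*(j+1))).s := hP1 _ (by omega)
  have e2 : V (i+1) ∈ (p (2*(j+1))).s := by
    dsimp only at heq
    rw [heq]; exact e1
  exact c3 i (j+1) (by omega) (by omega) _ e1 (c1 i (by omega) _ e2).1

end KBT
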