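import Pool.Agent.KBT.Defs

set_option autoImplicit false

namespace KBT

open Filter

theorem HG2_mono {α β : Type*} {ρ : α → β → Prop} {h h' : ℕ} (hle : h' ≤ h) (hh : HG2 ρ h) :
    HG2 ρ h' := by
  obtain ⟨a, b, hab⟩ := hh
  exact ⟨a, b, fun i hi j hj => hab i (by omega) j (by omega)⟩

/-- first case of the exchange of limits -/
theorem swap_aux1 {α β : Type*} (𝒰 : Ultrafilter α) (𝒱 : Ultrafilter β) (ρ : α → β → Prop)
    (h1 : ∀ᶠ a in (𝒰 : Filter α), ∀ᶠ b in (𝒱 : Filter β), ρ a b)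
    (h2 : ∀ᶠ b in (𝒱 : Filter β), ∀ᶠ a in (𝒰 : Filter α), ¬ ρ a b) (h : ℕ) : HG2 ρ h := by
  classical
  -- pairs (a, b): b is chosen first
  obtain ⟨f, hf1, hf2⟩ := exists_seq_of_forall_finset_exists
    (fun c : α × β => ¬ ρ c.1 c.2 ∧ (∀ᶠ a' in (𝒰 : Filter α), ¬ ρ a' c.2) ∧
      (∀ᶠ b' in (𝒱 : Filter β), ρ c.1 b'))
    (fun c d : α × β => ρ c.1 d.2 ∧ ¬ ρ d.1 c.2) (by
      intro s hs
      have hb : ∀ᶠ b in (𝒱 : Filter β), (∀ᶠ a in (𝒰 : Filter α), ¬ ρ a b) ∧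
          ∀ c ∈ s, ρ c.1 b := by
        refine h2.and ?_
        rw [eventually_all_finset]
        exact fun c hc => (hs c hc).2.2
      obtain ⟨b, hb1, hb2⟩ := hb.exists
      have ha : ∀ᶠ a in (𝒰 : Filter α), ((∀ᶠ b' in (𝒱 : Filter β), ρ a b') ∧ ¬ ρ a b) ∧
          ∀ c ∈ s, ¬ ρ a c.2 := by
        refine (h1.and hb1).and ?_
        rw [eventually_all_finset]
        exact fun c hc => (hs c hc).2.1
      obtain ⟨a, ⟨ha1, ha2⟩, ha3⟩ := ha.exists
      exact ⟨(a, b), ⟨ha2, hb1, ha1⟩, fun c hc => ⟨hb2 c hc, ha3 c hc⟩⟩)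
  refine ⟨fun i => (f i).1, fun j => (f j).2, ?_⟩
  intro i _ j _
  rcases lt_trichotomy i j with hij | hij | hij
  · exact ⟨fun _ => hij, fun _ => (hf2 i j hij).1⟩
  · subst hij
    exact ⟨fun hr => absurd hr (hf1 i).1, fun hr => absurd hr (lt_irrefl _)⟩
  · exact ⟨fun hr => absurd hr (hf2 j i hij).2, fun hr => absurd hr (by omega)⟩

/-- second case of the exchange of limits -/
theorem swap_aux2 {α β : Type*} (𝒰 : Ultrafilter α) (𝒱 : Ultrafilter β) (ρ : α → β → Prop)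
    (h1 : ∀ᶠ a in (𝒰 : Filter α), ∀ᶠ b in (𝒱 : Filter β), ¬ ρ a b)
    (h2 : ∀ᶠ b in (𝒱 : Filter β), ∀ᶠ a in (𝒰 : Filter α), ρ a b) (h : ℕ) : HG2 ρ h := by
  -- the complement relation has long half graphs; reverse the order
  obtain ⟨a, b, hab⟩ := swap_aux1 𝒰 𝒱 (fun x y => ¬ ρ x y) h1
    (h2.mono fun b hb => hb.mono fun a ha => not_not.mpr ha) (h + 2)
  refine ⟨fun i => a (h - i), fun j => b (h - j + 1), ?_⟩
  intro i hi j hj
  have := hab (h - i) (by omega) (h - j + 1) (by omega)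
  dsimp only at this ⊢
  constructor
  · intro hr
    by_contra hij
    exact (this.mpr (by omega)) hr
  · intro hij
    by_contra hr
    have := this.mp hr
    omega

/-- Exchange of the order of two limits along ultrafilters, when there is no long half graph. -/
theorem swap {α β : Type*} (𝒰 : Ultrafilter α) (𝒱 : Ultrafilter β) (ρ : α → β → Prop) {h : ℕ}
    (hh : ¬ HG2 ρ h) :
    (∀ᶠ a in (𝒰 : Filter α), ∀ᶠ b in (𝒱 : Filter β), ρ a b) ↔
      (∀ᶠ b in (𝒱 : Filter β), ∀ᶠ a in (𝒰 : Filter α), ρ a b) := by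
  constructor
  · intro h1
    by_contra h2
    rw [ev_not] at h2
    refine hh (swap_aux1 𝒰 𝒱 ρ h1 (h2.mono fun b hb => ?_) h)
    rwa [ev_not] at hb
  · intro h2
    by_contra h1
    rw [ev_not] at h1
    refine hh (swap_aux2 𝒰 𝒱 ρ (h1.mono fun b hb => ?_) h2 h)
    rwa [ev_not] at hb

/-- Limits of relations without long half graphs have no long half graphs. -/
theorem hg_lim {α β I W : Type*} (𝒲 : Ultrafilter I) (R : W → W → Prop) (f : α → I → W)
    (g : β → I → W) {h : ℕ} (hh : ¬ HG2 R h) :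
    ¬ HG2 (fun a b => ∀ᶠ i in (𝒲 : Filter I), R (f a i) (g b i)) h := by
  rintro ⟨a, b, hab⟩
  apply hh
  have : ∀ᶠ n in (𝒲 : Filter I), ∀ i ∈ Finset.range h, ∀ j ∈ Finset.range h,
      (R (f (a i) n) (g (b j) n) ↔ i < j) := by
    rw [eventually_all_finset]
    intro i hi
    rw [eventually_all_finset]
    intro j hj
    have h1 := hab i (Finset.mem_range.mp hi) j (Finset.mem_range.mp hj)
    by_cases hij : i < j
    · have h2 := h1.mpr hij
      exact h2.mono fun n hn => ⟨fun _ => hij, fun _ => hn⟩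
    · have h2 : ¬ ∀ᶠ n in (𝒲 : Filter I), R (f (a i) n) (g (b j) n) := fun h3 => hij (h1.mp h3)
      rw [ev_not] at h2
      exact h2.mono fun n hn => ⟨fun h4 => absurd h4 hn, fun h4 => absurd h4 hij⟩
  obtain ⟨n, hn⟩ := this.exists
  exact ⟨fun i => f (a i) n, fun j => g (b j) n, fun i hi j hj =>
    hn i (Finset.mem_range.mpr hi) j (Finset.mem_range.mpr hj)⟩

end KBT
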